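import Pool.Agent.H900.X6.Df

set_option autoImplicit false

namespace Pool.Agent.H900.X6

open MvPolynomial Module

noncomputable section

variable {n : ℕ}

theorem X6C_eval {R S : Type} [CommRing R] [CommRing S] (φ : R →+* S) (x : Fin (n + 2) → R)
    (f : MvPolynomial (Fin (n + 2)) R) :
    eval (fun i => φ (x i)) (map φ f) = φ (eval x f) := by
  have h := eval₂_comp_left φ (RingHom.id R) x f
  rw [eval_map]
  rw [RingHom.comp_id] at h
  exact h.symm

theorem X6C_DD {R S : Type} [CommRing R] [CommRing S] (φ : R →+* S) (x y : Fin (n + 2) → R)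
    (f : MvPolynomial (Fin (n + 2)) R) :
    DD (map φ f) (fun i => φ (x i)) (fun i => φ (y i)) = φ (DD f x y) := by
  unfold DD
  rw [map_sum]
  apply Finset.sum_congr rfl
  intro i _
  rw [pderiv_map, X6C_eval, map_mul]

theorem X6C_e0 {R S : Type} [CommRing R] [CommRing S] (φ : R →+* S) :
    e0 n S = fun i => φ (e0 n R i) := by
  funext i
  unfold e0
  by_cases h : i = 0
  · subst h
    rw [Pi.single_eq_same, Pi.single_eq_same, map_one]
  · rw [Pi.single_eq_of_ne h, Pi.single_eq_of_ne h, map_zero]

theorem X6C_LL {R S : Type} [CommRing R] [CommRing S] (φ : R →+* S)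
    (f : MvPolynomial (Fin (n + 2)) R) (i : Fin (n + 2)) :
    LL (map φ f) i = φ (LL f i) := by
  unfold LL
  rw [pderiv_map, X6C_e0 φ, X6C_eval]

theorem X6C_vv {R S : Type} [CommRing R] [CommRing S] (φ : R →+* S)
    (f : MvPolynomial (Fin (n + 2)) R) (u : R) :
    vv (map φ f) (φ u) = fun i => φ (vv f u i) := by
  funext i
  unfold vv
  split_ifs <;> simp [X6C_LL]

theorem X6C_qq {R S : Type} [CommRing R] [CommRing S] (φ : R →+* S)
    (f : MvPolynomial (Fin (n + 2)) R) (u : R) :
    qq (map φ f) (φ u) = fun i => φ (qq f u i) := by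
  funext i
  unfold qq
  rw [X6C_vv, X6C_eval, X6C_e0 φ, X6C_DD]
  split_ifs <;> simp

theorem GG_map {R S : Type} [CommRing R] [CommRing S] (φ : R →+* S)
    (f : MvPolynomial (Fin (n + 2)) R) (u : R) (i : Fin (n + 2)) :
    GG (map φ f) (φ u) i = φ (GG f u i) := by
  unfold GG
  rw [pderiv_map, X6C_qq, X6C_eval]

theorem X6C_sv {R S : Type} [CommRing R] [CommRing S] (φ : R →+* S)
    (z : Fin n → R) (i : Fin (n + 2)) :
    sv (fun j => φ (z j)) i = φ (sv z i) := by
  unfold sv
  split_ifs
  · rfl
  · rw [map_zero]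

theorem X6C_ww {R S : Type} [CommRing R] [CommRing S] (φ : R →+* S)
    (f : MvPolynomial (Fin (n + 2)) R) (u : R) (z : Fin n → R) :
    ww (map φ f) (φ u) (fun j => φ (z j)) = fun i => φ (ww f u z i) := by
  funext i
  unfold ww
  split_ifs
  · rw [map_neg, map_add, map_sum, GG_map]
    congr 2
    apply Finset.sum_congr rfl
    intro j _
    rw [map_mul, X6C_sv, GG_map]
  · rw [GG_map]
  · rw [map_mul, X6C_sv, GG_map]

theorem X6C_HH {R S : Type} [CommRing R] [CommRing S] (φ : R →+* S)
    (f : MvPolynomial (Fin (n + 2)) R) (u : R) (z : Fin n → R) :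
    HH (map φ f) (φ u) (fun j => φ (z j)) = φ (HH f u z) := by
  unfold HH
  rw [X6C_ww, X6C_qq, X6C_DD]

theorem gg_map {R S : Type} [CommRing R] [CommRing S] (φ : R →+* S)
    (f : MvPolynomial (Fin (n + 2)) R) (u : R) (z : Fin n → R) (i : Fin (n + 2)) :
    gg (map φ f) (φ u) (fun j => φ (z j)) i = φ (gg f u z i) := by
  unfold gg
  rw [X6C_HH, X6C_ww, X6C_qq, X6C_eval]
  simp only [map_sub, map_mul]

theorem NN_map {R S : Type} [CommRing R] [CommRing S] (φ : R →+* S)
    (f : MvPolynomial (Fin (n + 2)) R) (u : R) (z : Fin n → R) :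
    NN (map φ f) (φ u) (fun j => φ (z j)) = φ (NN f u z) := by
  unfold NN
  have h0 : ∀ i, GG (map φ f) 0 i = φ (GG f 0 i) := by
    intro i
    have h := GG_map φ f 0 i
    rwa [map_zero] at h
  rw [X6C_HH, X6C_qq, GG_map]
  simp only [map_mul, map_sum]
  congr 1
  apply Finset.sum_congr rfl
  intro i _
  rw [h0, gg_map]

/-- the degree of the value of a form at polynomials of bounded degree -/
theorem X6C_deg {k : Type} [Field k] {d m : ℕ} {f : MvPolynomial (Fin (n + 2)) k}
    (hf : f.IsHomogeneous d) (y : Fin (n + 2) → Polynomial k) (hy : ∀ i, (y i).natDegree ≤ m) :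
    (eval y (map (Polynomial.C : k →+* Polynomial k) f)).natDegree ≤ d * m := by
  rw [eval_map, eval₂_eq']
  apply Polynomial.natDegree_sum_le_of_forall_le
  intro e he
  have hd : e.degree = d := by
    have h := hf (mem_support_iff.mp he)
    rw [Finsupp.degree_eq_weight_one (R := ℕ)]
    exact h
  refine (Polynomial.natDegree_C_mul_le _ _).trans ?_
  refine (Polynomial.natDegree_prod_le _ _).trans ?_
  calc ∑ i, (y i ^ e i).natDegree ≤ ∑ i, e i * m := by
        apply Finset.sum_le_sum
        intro i _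
        exact (Polynomial.natDegree_pow_le).trans (Nat.mul_le_mul_left _ (hy i))
    _ = d * m := by
        rw [← Finset.sum_mul, ← hd, Finsupp.degree_eq_sum]

theorem X6C_LL_deg {k : Type} [Field k] (f : MvPolynomial (Fin (n + 2)) k) (i : Fin (n + 2)) :
    (LL (map (Polynomial.C : k →+* Polynomial k) f) i).natDegree ≤ 0 := by
  rw [X6C_LL]
  exact (Polynomial.natDegree_C _).le

theorem X6C_vv_deg {k : Type} [Field k] (f : MvPolynomial (Fin (n + 2)) k) (i : Fin (n + 2)) :
    (vv (map (Polynomial.C : k →+* Polynomial k) f) Polynomial.X i).natDegree ≤ 1 := by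
  unfold vv
  have hX : ∀ j, (Polynomial.X * LL (map (Polynomial.C : k →+* Polynomial k) f) j).natDegree ≤ 1 := by
    intro j
    refine Polynomial.natDegree_mul_le.trans ?_
    have h1 : (Polynomial.X : Polynomial k).natDegree ≤ 1 := Polynomial.natDegree_X_le
    have h2 := X6C_LL_deg f j
    omega
  split_ifs
  · rw [Polynomial.natDegree_neg]
    refine (Polynomial.natDegree_add_le _ _).trans (max_le ?_ (hX _))
    exact (X6C_LL_deg f 1).trans (by norm_num)
  · exact (X6C_LL_deg f _).trans (by norm_num)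
  · exact hX _
  · rw [Polynomial.natDegree_zero]; norm_num

theorem X6C_qq_deg {k : Type} [Field k] {f : MvPolynomial (Fin (n + 2)) k}
    (hf : f.IsHomogeneous 3) (i : Fin (n + 2)) :
    (qq (map (Polynomial.C : k →+* Polynomial k) f) Polynomial.X i).natDegree ≤ 3 := by
  unfold qq
  have h1 : (eval (vv (map (Polynomial.C : k →+* Polynomial k) f) Polynomial.X)
      (map (Polynomial.C : k →+* Polynomial k) f)).natDegree ≤ 3 :=
    X6C_deg hf _ (X6C_vv_deg f)
  have h2 : (DD (map (Polynomial.C : k →+* Polynomial k) f)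
      (vv (map (Polynomial.C : k →+* Polynomial k) f) Polynomial.X)
      (e0 n (Polynomial k))).natDegree ≤ 2 := by
    unfold DD
    apply Polynomial.natDegree_sum_le_of_forall_le
    intro j _
    have h3 : (eval (vv (map (Polynomial.C : k →+* Polynomial k) f) Polynomial.X)
      (pderiv j (map (Polynomial.C : k →+* Polynomial k) f))).natDegree ≤ 2 := by
      rw [pderiv_map]
      exact X6C_deg hf.pderiv _ (X6C_vv_deg f)
    have h4 : (e0 n (Polynomial k) j).natDegree ≤ 0 := by
      unfold e0
      by_cases h : j = 0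
      · subst h
        rw [Pi.single_eq_same, Polynomial.natDegree_one]
      · rw [Pi.single_eq_of_ne h, Polynomial.natDegree_zero]
    refine Polynomial.natDegree_mul_le.trans ?_
    omega
  refine (Polynomial.natDegree_add_le _ _).trans (max_le ?_ ?_)
  · split_ifs
    · rw [Polynomial.natDegree_neg]
      exact h1
    · rw [Polynomial.natDegree_zero]; norm_num
  · refine Polynomial.natDegree_mul_le.trans ?_
    have h5 := X6C_vv_deg f i
    omega

theorem GG_deg {k : Type} [Field k] {f : MvPolynomial (Fin (n + 2)) k} (hf : f.IsHomogeneous 3)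
    (i : Fin (n + 2)) :
    (GG (map (Polynomial.C : k →+* Polynomial k) f) Polynomial.X i).natDegree ≤ 6 := by
  unfold GG
  rw [pderiv_map]
  exact X6C_deg hf.pderiv _ (X6C_qq_deg hf)

end

end Pool.Agent.H900.X6
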