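import Pool.Agent.H900.X6.Df
import Pool.Agent.H900.X6.C

set_option autoImplicit false

namespace Pool.Agent.H900.X6

open MvPolynomial Module

noncomputable section

variable {n : ℕ}

/-- the special form -/
def X6E_f (n : ℕ) : MvPolynomial (Fin (n + 2)) ℚ :=
  X 0 ^ 2 * X (Fin.last (n + 1)) + X 0 * X 1 ^ 2 + X 2 ^ 3 + X (Fin.last (n + 1)) ^ 3

/-- the special values of the free coordinates -/
def X6E_z (n : ℕ) (j : Fin n) : ℚ := if j.1 = 0 then 1 else 0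

theorem X6E_ne (hn : 2 ≤ n) : (0 : Fin (n + 2)) ≠ 1 ∧ (0 : Fin (n + 2)) ≠ 2 ∧
    (0 : Fin (n + 2)) ≠ Fin.last (n + 1) ∧ (1 : Fin (n + 2)) ≠ 2 ∧
    (1 : Fin (n + 2)) ≠ Fin.last (n + 1) ∧ (2 : Fin (n + 2)) ≠ Fin.last (n + 1) := by
  have v0 : (0 : Fin (n + 2)).val = 0 := rfl
  have v1 : (1 : Fin (n + 2)).val = 1 := by
    change 1 % (n + 2) = 1
    exact Nat.mod_eq_of_lt (by omega)
  have v2 : (2 : Fin (n + 2)).val = 2 := by
    change 2 % (n + 2) = 2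
    exact Nat.mod_eq_of_lt (by omega)
  have vL : (Fin.last (n + 1)).val = n + 1 := rfl
  refine ⟨?_, ?_, ?_, ?_, ?_, ?_⟩ <;> intro h <;> have h' := congrArg Fin.val h <;> omega

theorem X6E_eval (x : Fin (n + 2) → ℚ) : eval x (X6E_f n) =
    x 0 ^ 2 * x (Fin.last (n + 1)) + x 0 * x 1 ^ 2 + x 2 ^ 3 + x (Fin.last (n + 1)) ^ 3 := by
  unfold X6E_f
  simp only [map_add, map_mul, map_pow, eval_X]

theorem X6E_pd (x : Fin (n + 2) → ℚ) (i : Fin (n + 2)) : eval x (pderiv i (X6E_f n)) =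
    (2 * x 0 * x (Fin.last (n + 1)) + x 1 ^ 2) * (if 0 = i then 1 else 0) +
      (2 * x 0 * x 1) * (if 1 = i then 1 else 0) + (3 * x 2 ^ 2) * (if 2 = i then 1 else 0) +
      (x 0 ^ 2 + 3 * x (Fin.last (n + 1)) ^ 2) * (if Fin.last (n + 1) = i then 1 else 0) := by
  have hX : ∀ j : Fin (n + 2), eval x (pderiv i (X j : MvPolynomial (Fin (n + 2)) ℚ)) =
      if j = i then 1 else 0 := by
    intro j
    rw [pderiv_X, Pi.single_apply]
    split_ifs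
    · exact map_one _
    · exact map_zero _
  unfold X6E_f
  simp only [map_add, Derivation.leibniz, Derivation.leibniz_pow, smul_eq_mul, map_mul, map_pow,
    eval_X, hX, nsmul_eq_mul, map_natCast]
  push_cast
  ring

theorem X6E_DD (x y : Fin (n + 2) → ℚ) : DD (X6E_f n) x y =
    (2 * x 0 * x (Fin.last (n + 1)) + x 1 ^ 2) * y 0 + (2 * x 0 * x 1) * y 1 +
      (3 * x 2 ^ 2) * y 2 +
      (x 0 ^ 2 + 3 * x (Fin.last (n + 1)) ^ 2) * y (Fin.last (n + 1)) := by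
  unfold DD
  have h : ∀ (a : ℚ) (j : Fin (n + 2)),
      ∑ i, a * (if j = i then (1 : ℚ) else 0) * y i = a * y j := by
    intro a j
    have h1 : ∀ i, a * (if j = i then (1 : ℚ) else 0) * y i = if j = i then a * y i else 0 := by
      intro i
      split_ifs <;> ring
    rw [Finset.sum_congr rfl fun i _ => h1 i, Finset.sum_ite_eq, if_pos (Finset.mem_univ j)]
  rw [← h _ 0, ← h _ 1, ← h _ 2, ← h _ (Fin.last (n + 1)), ← Finset.sum_add_distrib,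
    ← Finset.sum_add_distrib, ← Finset.sum_add_distrib]
  refine Finset.sum_congr rfl fun i _ => ?_
  rw [X6E_pd]
  ring

theorem X6E_LL (hn : 2 ≤ n) (i : Fin (n + 2)) :
    LL (X6E_f n) i = if Fin.last (n + 1) = i then 1 else 0 := by
  obtain ⟨h01, h02, h0L, h12, h1L, h2L⟩ := X6E_ne hn
  have e00 : e0 n ℚ 0 = 1 := Pi.single_eq_same _ _
  have e01 : e0 n ℚ 1 = 0 := Pi.single_eq_of_ne h01.symm _
  have e02 : e0 n ℚ 2 = 0 := Pi.single_eq_of_ne h02.symm _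
  have e0L : e0 n ℚ (Fin.last (n + 1)) = 0 := Pi.single_eq_of_ne h0L.symm _
  unfold LL
  rw [X6E_pd, e00, e01, e02, e0L]
  ring

theorem X6E_vv (hn : 2 ≤ n) (u : ℚ) : vv (X6E_f n) u 0 = 0 ∧ vv (X6E_f n) u 1 = 1 ∧
    vv (X6E_f n) u 2 = u ∧ vv (X6E_f n) u (Fin.last (n + 1)) = 0 := by
  obtain ⟨h01, h02, h0L, h12, h1L, h2L⟩ := X6E_ne hn
  unfold vv
  refine ⟨?_, ?_, ?_, ?_⟩
  · rw [if_neg h0L, if_neg h01, if_neg h02]
  · rw [if_neg h1L, if_pos rfl, X6E_LL hn, if_pos rfl]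
  · rw [if_neg h2L, if_neg h12.symm, if_pos rfl, X6E_LL hn, if_pos rfl, mul_one]
  · rw [if_pos rfl, X6E_LL hn, X6E_LL hn, if_neg h1L.symm, if_neg h2L.symm]
    ring

theorem X6E_qq (hn : 2 ≤ n) (u : ℚ) : qq (X6E_f n) u 0 = -u ^ 3 ∧ qq (X6E_f n) u 1 = 1 ∧
    qq (X6E_f n) u 2 = u ∧ qq (X6E_f n) u (Fin.last (n + 1)) = 0 := by
  obtain ⟨h01, h02, h0L, h12, h1L, h2L⟩ := X6E_ne hn
  obtain ⟨v0, v1, v2, vL⟩ := X6E_vv hn u
  have e00 : e0 n ℚ 0 = 1 := Pi.single_eq_same _ _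
  have e01 : e0 n ℚ 1 = 0 := Pi.single_eq_of_ne h01.symm _
  have e02 : e0 n ℚ 2 = 0 := Pi.single_eq_of_ne h02.symm _
  have e0L : e0 n ℚ (Fin.last (n + 1)) = 0 := Pi.single_eq_of_ne h0L.symm _
  unfold qq
  rw [X6E_DD, X6E_eval, v0, v1, v2, vL, e00, e01, e02, e0L, if_pos rfl, if_neg h01.symm,
    if_neg h02.symm, if_neg h0L.symm]
  refine ⟨?_, ?_, ?_, ?_⟩ <;> ring

theorem X6E_GG (hn : 2 ≤ n) (u : ℚ) (i : Fin (n + 2)) : GG (X6E_f n) u i =
    (if 0 = i then 1 else 0) + (-2 * u ^ 3) * (if 1 = i then 1 else 0) +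
      (3 * u ^ 2) * (if 2 = i then 1 else 0) + u ^ 6 * (if Fin.last (n + 1) = i then 1 else 0) := by
  obtain ⟨q0, q1, q2, qL⟩ := X6E_qq hn u
  unfold GG
  rw [X6E_pd, q0, q1, q2, qL]
  ring

theorem X6E_sv (i : Fin (n + 2)) : sv (X6E_z n) i = 0 := by
  unfold sv X6E_z
  split_ifs with h1 h2
  · exfalso
    simp only at h2
    omega
  · rfl
  · rfl

theorem X6E_ww (hn : 2 ≤ n) (i : Fin (n + 2)) : ww (X6E_f n) 1 (X6E_z n) i =
    if i = Fin.last (n + 1) then 2 else if i = 1 then 1 else 0 := by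
  obtain ⟨h01, h02, h0L, h12, h1L, h2L⟩ := X6E_ne hn
  unfold ww
  have hs : ∑ j, sv (X6E_z n) j * GG (X6E_f n) 1 j = 0 :=
    Finset.sum_eq_zero fun j _ => by rw [X6E_sv, zero_mul]
  rw [hs, X6E_sv, zero_mul, X6E_GG hn, X6E_GG hn, if_neg h01, if_pos rfl, if_neg h12.symm,
    if_neg h1L.symm, if_neg h0L, if_neg h1L, if_neg h2L, if_pos rfl]
  split_ifs <;> norm_num

theorem X6E_NN (hn : 2 ≤ n) : NN (X6E_f n) 1 (X6E_z n) = -8 := by
  obtain ⟨h01, h02, h0L, h12, h1L, h2L⟩ := X6E_ne hn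
  obtain ⟨q0, q1, q2, qL⟩ := X6E_qq hn 1
  have w0 : ww (X6E_f n) 1 (X6E_z n) 0 = 0 := by rw [X6E_ww hn, if_neg h0L, if_neg h01]
  have w1 : ww (X6E_f n) 1 (X6E_z n) 1 = 1 := by rw [X6E_ww hn, if_neg h1L, if_pos rfl]
  have w2 : ww (X6E_f n) 1 (X6E_z n) 2 = 0 := by rw [X6E_ww hn, if_neg h2L, if_neg h12.symm]
  have wL : ww (X6E_f n) 1 (X6E_z n) (Fin.last (n + 1)) = 2 := by rw [X6E_ww hn, if_pos rfl]
  have hH : HH (X6E_f n) 1 (X6E_z n) = -1 := by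
    unfold HH
    rw [X6E_DD, w0, w1, w2, wL, q0, q1, q2, qL]
    norm_num
  have hw : eval (ww (X6E_f n) 1 (X6E_z n)) (X6E_f n) = 8 := by
    rw [X6E_eval, w0, w1, w2, wL]
    norm_num
  have hG : GG (X6E_f n) 1 (Fin.last (n + 1)) = 1 := by
    rw [X6E_GG hn, if_neg h0L, if_neg h1L, if_neg h2L, if_pos rfl]
    norm_num
  have hG0 : ∀ i, GG (X6E_f n) 0 i = if 0 = i then 1 else 0 := by
    intro i
    rw [X6E_GG hn]
    norm_num
  have hs : ∑ i, GG (X6E_f n) 0 i * gg (X6E_f n) 1 (X6E_z n) i = gg (X6E_f n) 1 (X6E_z n) 0 := by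
    have h1 : ∀ i, GG (X6E_f n) 0 i * gg (X6E_f n) 1 (X6E_z n) i =
        if 0 = i then gg (X6E_f n) 1 (X6E_z n) i else 0 := by
      intro i
      rw [hG0]
      split_ifs <;> ring
    rw [Finset.sum_congr rfl fun i _ => h1 i, Finset.sum_ite_eq, if_pos (Finset.mem_univ _)]
  unfold NN
  rw [hs, q0, hG, hH]
  unfold gg
  rw [hw, hH, q0, w0]
  norm_num

/-! ### the generic form -/

open Classical in
/-- the generic form -/
def X6E_g (n : ℕ) : MvPolynomial (Fin (n + 2)) (MvPolynomial (Mon' n ⊕ Fin n) ℚ) :=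
  ∑ β ∈ Finset.finsuppAntidiag Finset.univ 3,
    monomial β (if h : β.degree = 3 ∧ β ≠ Finsupp.single 0 3 then X (Sum.inl ⟨β, h⟩) else 0)

theorem X6E_map {R : Type} [CommRing R] (φ : MvPolynomial (Mon' n ⊕ Fin n) ℚ →+* R)
    {f : MvPolynomial (Fin (n + 2)) R} (hf : f.IsHomogeneous 3)
    (h0 : coeff (Finsupp.single 0 3) f = 0)
    (hφ : ∀ β : Mon' n, φ (X (Sum.inl β)) = coeff β.1 f) : map φ (X6E_g n) = f := by
  classical
  ext β
  rw [coeff_map]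
  unfold X6E_g
  rw [coeff_sum]
  simp only [coeff_monomial]
  rw [Finset.sum_ite_eq']
  by_cases hβ : β.degree = 3 ∧ β ≠ Finsupp.single 0 3
  · have hm : β ∈ Finset.finsuppAntidiag (Finset.univ : Finset (Fin (n + 2))) 3 := by
      rw [Finset.mem_finsuppAntidiag]
      refine ⟨?_, Finset.subset_univ _⟩
      rw [← Finsupp.degree_eq_sum]
      exact hβ.1
    rw [if_pos hm, dif_pos hβ]
    exact hφ ⟨β, hβ⟩
  · have h1 : coeff β f = 0 := by
      by_cases h2 : β.degree = 3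
      · have h3 : β = Finsupp.single 0 3 := by
          by_contra h4
          exact hβ ⟨h2, h4⟩
        rw [h3]
        exact h0
      · exact hf.coeff_eq_zero h2
    rw [h1, dif_neg hβ, ite_self, map_zero]

theorem X6E_f_hom : (X6E_f n).IsHomogeneous 3 := by
  unfold X6E_f
  have h : ∀ i : Fin (n + 2), (X i : MvPolynomial (Fin (n + 2)) ℚ).IsHomogeneous 1 :=
    fun i => isHomogeneous_X _ _
  refine ((IsHomogeneous.add (((h 0).pow 2).mul (h _)) ((h 0).mul ((h 1).pow 2))).add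
    ((h 2).pow 3)).add ((h _).pow 3)

theorem X6E_f_zero (hn : 2 ≤ n) : coeff (Finsupp.single 0 3) (X6E_f n) = 0 := by
  obtain ⟨h01, h02, h0L, -⟩ := X6E_ne hn
  have hs : ∀ j : Fin (n + 2), j ≠ 0 → ∀ p : MvPolynomial (Fin (n + 2)) ℚ,
      coeff (Finsupp.single 0 3) (p * X j) = 0 := by
    intro j hj p
    rw [coeff_mul_X', if_neg]
    rw [Finsupp.notMem_support_iff]
    exact Finsupp.single_eq_of_ne hj
  unfold X6E_f
  rw [coeff_add, coeff_add, coeff_add, hs _ h0L.symm,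
    pow_two (X 1 : MvPolynomial (Fin (n + 2)) ℚ), ← mul_assoc, hs 1 h01.symm,
    pow_succ (X 2 : MvPolynomial (Fin (n + 2)) ℚ), hs 2 h02.symm,
    pow_succ (X (Fin.last (n + 1)) : MvPolynomial (Fin (n + 2)) ℚ) 2, hs _ h0L.symm]
  norm_num

/-- T5. the product is not zero for generic forms -/
theorem NN_gen {M : Type} [Field M] [CharZero M] (hn : 2 ≤ n)
    {f : MvPolynomial (Fin (n + 2)) M} (hf : f.IsHomogeneous 3)
    (h0 : coeff (Finsupp.single 0 3) f = 0) (z : Fin n → M)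
    (hi : AlgebraicIndependent ℚ (Sum.elim (fun β : Mon' n => coeff β.1 f) z)) :
    NN f (z ⟨0, by omega⟩) z ≠ 0 := by
  obtain ⟨φ, hφ⟩ : ∃ φ : MvPolynomial (Mon' n ⊕ Fin n) ℚ →+* M,
      φ = (aeval (Sum.elim (fun β : Mon' n => coeff β.1 f) z)).toRingHom := ⟨_, rfl⟩
  have hinj : Function.Injective φ := by
    rw [hφ]
    exact hi
  have hφl : ∀ β : Mon' n, φ (X (Sum.inl β)) = coeff β.1 f := by
    intro β
    rw [hφ]
    exact aeval_X _ _
  have hφr : ∀ j : Fin n, φ (X (Sum.inr j)) = z j := by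
    intro j
    rw [hφ]
    exact aeval_X _ _
  obtain ⟨ψ, hψ⟩ : ∃ ψ : MvPolynomial (Mon' n ⊕ Fin n) ℚ →+* ℚ,
      ψ = (aeval (Sum.elim (fun β : Mon' n => coeff β.1 (X6E_f n)) (X6E_z n))).toRingHom :=
    ⟨_, rfl⟩
  have hψl : ∀ β : Mon' n, ψ (X (Sum.inl β)) = coeff β.1 (X6E_f n) := by
    intro β
    rw [hψ]
    exact aeval_X _ _
  have hψr : ∀ j : Fin n, ψ (X (Sum.inr j)) = X6E_z n j := by
    intro j
    rw [hψ]
    exact aeval_X _ _
  have e1 := NN_map φ (X6E_g n) (X (Sum.inr ⟨0, by omega⟩)) (fun j => X (Sum.inr j))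
  have e2 := NN_map ψ (X6E_g n) (X (Sum.inr ⟨0, by omega⟩)) (fun j => X (Sum.inr j))
  rw [X6E_map φ hf h0 hφl, hφr, funext hφr] at e1
  rw [X6E_map ψ X6E_f_hom (X6E_f_zero hn) hψl, hψr, funext hψr] at e2
  have e3 : X6E_z n ⟨0, by omega⟩ = 1 := if_pos rfl
  rw [e3, X6E_NN hn] at e2
  rw [e1]
  intro h
  rw [← map_zero φ] at h
  rw [hinj h, map_zero] at e2
  norm_num at e2

end

end Pool.Agent.H900.X6
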