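import Pool.Agent.H900.X6.Df
import Pool.Graph.R_pool_sql_team_seeded_63374d34.N122.Lang

/-! # Common zeros of few forms over `ℂ` (project X6, task F) -/

set_option autoImplicit false

namespace Pool.Agent.H900.X6

open MvPolynomial

noncomputable section

variable {n : ℕ}

theorem X6F_ind : AlgebraicIndependent ℂ (Fin.elim0 : Fin 0 → ℂ) := by
  rw [algebraicIndependent_empty_type_iff]
  exact Function.injective_id

/-- T6. common zeros -/
theorem base_point {Q : Type} [Fintype Q] (hQ : Fintype.card Q ≤ n + 1)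
    (P : Q → MvPolynomial (Fin (n + 2)) ℂ) (e : Q → ℕ) (he : ∀ q, 1 ≤ e q)
    (hP : ∀ q, (P q).IsHomogeneous (e q)) : ∃ p : Fin (n + 2) → ℂ, p ≠ 0 ∧
      ∀ q, eval p (P q) = 0 := by
  refine Pool.Agent.N122.Lang.lang (k := ℂ) (L := ℂ) (m := 0) Fin.elim0 (J := Unit) (fun _ => 1)
    X6F_ind ?_ ?_ (fun _ : Fin (n + 2) => 1) (fun _ => le_rfl) e he P hP ?_
  · intro z
    refine ⟨1, one_ne_zero, fun _ => C z, ?_⟩
    simp
  · intro p hp j
    simp only [Finset.univ_unique, Finset.sum_singleton, mul_one] at hp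
    exact (algebraicIndependent_iff.1 X6F_ind) (p j) hp
  · simp
    omega

end

end Pool.Agent.H900.X6
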