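import Pool.Agent.H900.X6.Df

set_option autoImplicit false

namespace Pool.Agent.H900.X6

open MvPolynomial Module

noncomputable section

/-- T7a. counting -/
theorem indep_count {k L α β : Type} [Field k] [Field L] [Algebra k L] [Fintype α] [Fintype β]
    {y : α → L} {x : β → L} (hc : Fintype.card α ≤ Fintype.card β) (hx : AlgebraicIndependent k x)
    (h : ∀ b, x b ∈ IntermediateField.adjoin k (Set.range y)) : AlgebraicIndependent k y := by
  obtain ⟨E, hE⟩ : ∃ E : IntermediateField k L, E = IntermediateField.adjoin k (Set.range y) :=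
    ⟨_, rfl⟩
  have hyE : ∀ a, y a ∈ E := fun a => by
    rw [hE]
    exact IntermediateField.subset_adjoin k _ ⟨a, rfl⟩
  have hxE : ∀ b, x b ∈ E := fun b => by
    rw [hE]
    exact h b
  let y' : α → E := fun a => ⟨y a, hyE a⟩
  let x' : β → E := fun b => ⟨x b, hxE b⟩
  have hx' : AlgebraicIndependent k x' := by
    refine AlgebraicIndependent.of_comp E.val ?_
    exact hx
  have htop : ∀ e : E, e ∈ IntermediateField.adjoin k (Set.range y') := by
    intro e
    have h1 : (IntermediateField.adjoin k (Set.range y')).map E.val = E := by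
      rw [IntermediateField.adjoin_map, ← Set.range_comp]
      exact hE.symm
    have h2 : (e : L) ∈ (IntermediateField.adjoin k (Set.range y')).map E.val := by
      rw [h1]
      exact e.2
    obtain ⟨e', h3, h4⟩ := h2
    have h5 : e' = e := Subtype.ext h4
    rw [← h5]
    exact h3
  have halg : Algebra.IsAlgebraic (Algebra.adjoin k (Set.range y')) E := by
    refine ⟨fun e => ?_⟩
    obtain ⟨r, hr, s, hs, h1⟩ := (IntermediateField.mem_adjoin_iff_div).1 (htop e)
    rw [h1, div_eq_mul_inv]
    exact (isAlgebraic_algebraMap (R := Algebra.adjoin k (Set.range y')) (A := E) ⟨r, hr⟩).mul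
      (isAlgebraic_algebraMap (R := Algebra.adjoin k (Set.range y')) (A := E) ⟨s, hs⟩).inv
  have hle : Cardinal.mk α ≤ Algebra.trdeg k E := by
    refine le_trans ?_ hx'.cardinalMk_le_trdeg
    rw [Cardinal.mk_fintype, Cardinal.mk_fintype]
    exact_mod_cast hc
  have hb : IsTranscendenceBasis k y' := Algebra.IsAlgebraic.isTranscendenceBasis_of_le_trdeg_of_finite k y' hle
  exact hb.1.map' (f := E.val) E.val.injective

end

end Pool.Agent.H900.X6
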