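import Pool.Agent.H900.X6.Df
import Pool.Agent.H900.X6.I
import Pool.Agent.H900.X6.G

set_option autoImplicit false

namespace Pool.Agent.H900.X6

open MvPolynomial Module

noncomputable section

variable {n : ℕ}

theorem X6H_finite (n : ℕ) : Finite {β : Fin (n + 2) →₀ ℕ // β.degree = 3} := by
  have h : {β : Fin (n + 2) →₀ ℕ | β.degree = 3}.Finite :=
    (Finset.finsuppAntidiag Finset.univ 3).finite_toSet.subset fun β hβ => by
      rw [Finset.mem_coe, Finset.mem_finsuppAntidiag]
      refine ⟨?_, Finset.subset_univ _⟩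
      have hβ' : β.degree = 3 := hβ
      rw [← hβ', Finsupp.degree_eq_sum]
  exact h.to_subtype

theorem X6H_finite' (n : ℕ) : Finite (Mon' n) := by
  have := X6H_finite n
  refine Finite.of_injective
    (fun β : Mon' n => (⟨β.1, β.2.1⟩ : {β : Fin (n + 2) →₀ ℕ // β.degree = 3})) fun a b h => ?_
  have h2 : a.1 = b.1 := congrArg (fun β : {β : Fin (n + 2) →₀ ℕ // β.degree = 3} => β.1) h
  exact Subtype.ext h2

theorem X6H_card (n : ℕ) [Fintype {β : Fin (n + 2) →₀ ℕ // β.degree = 3}] [Fintype (Mon' n)] :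
    Fintype.card (Mon' n) + 1 ≤ Fintype.card {β : Fin (n + 2) →₀ ℕ // β.degree = 3} := by
  rw [← Fintype.card_option]
  refine Fintype.card_le_of_injective (fun o : Option (Mon' n) => o.elim
    (⟨Finsupp.single 0 3, by simp⟩ : {β : Fin (n + 2) →₀ ℕ // β.degree = 3})
    fun β => ⟨β.1, β.2.1⟩) ?_
  intro a b h
  rcases a with _ | a <;> rcases b with _ | b
  · rfl
  · exact absurd (congrArg Subtype.val h).symm b.2.2
  · exact absurd (congrArg Subtype.val h) a.2.2
  · have h2 : a.1 = b.1 := congrArg (fun β : {β : Fin (n + 2) →₀ ℕ // β.degree = 3} => β.1) h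
    exact congrArg some (Subtype.ext h2)

theorem X6H_subst_subst {R : Type} [CommRing R] (p : Fin (n + 2) → R)
    (F : MvPolynomial (Fin (n + 2)) R) : subst (fun i => - p i) (subst p F) = F := by
  have h : ((aeval (fun i => if i = 0 then (X 0 : MvPolynomial (Fin (n + 2)) R)
      else X i + C (- p i) * X 0)).comp
      (aeval (fun i => if i = 0 then (X 0 : MvPolynomial (Fin (n + 2)) R)
        else X i + C (p i) * X 0)) : MvPolynomial (Fin (n + 2)) R →ₐ[R] _) =
      AlgHom.id R _ := by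
    apply MvPolynomial.algHom_ext
    intro i
    by_cases hi : i = 0
    · subst hi
      simp
    · simp only [AlgHom.comp_apply, aeval_X, if_neg hi, map_add, map_mul, AlgHom.id_apply,
        if_true, algHom_C]
      simp only [MvPolynomial.algebraMap_eq, map_neg]
      ring
  exact DFunLike.congr_fun h F

theorem X6H_subst_map {R S : Type} [CommRing R] [CommRing S] (φ : R →+* S) (p : Fin (n + 2) → R)
    (F : MvPolynomial (Fin (n + 2)) R) :
    subst (fun i => φ (p i)) (map φ F) = map φ (subst p F) := by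
  unfold subst
  induction F using MvPolynomial.induction_on with
  | C a => simp [algHom_C, MvPolynomial.algebraMap_eq]
  | add f g hf hg => simp only [map_add, hf, hg]
  | mul_X f i hf =>
    rw [map_mul, map_mul, map_mul, map_mul, hf]
    congr 1
    rw [map_X, aeval_X, aeval_X]
    split_ifs <;> simp

theorem X6H_coeff_mem (K : IntermediateField ℚ ℂ) (q : Fin (n + 2) → ℂ) (hq : ∀ i, q i ∈ K)
    (G : MvPolynomial (Fin (n + 2)) ℂ) (hG : ∀ β, coeff β G ∈ K) (β : Fin (n + 2) →₀ ℕ) :
    coeff β (subst q G) ∈ K := by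
  obtain ⟨G', hG'⟩ : ∃ G' : MvPolynomial (Fin (n + 2)) K, map (algebraMap K ℂ) G' = G := by
    refine ⟨∑ d ∈ G.support, monomial d (⟨coeff d G, hG d⟩ : K), ?_⟩
    rw [map_sum]
    conv_rhs => rw [G.as_sum]
    refine Finset.sum_congr rfl fun d _ => ?_
    rw [map_monomial]
    rfl
  have h := X6H_subst_map (algebraMap K ℂ) (fun i => (⟨q i, hq i⟩ : K)) G'
  rw [hG'] at h
  have h' : subst q G = map (algebraMap K ℂ) (subst (fun i => (⟨q i, hq i⟩ : K)) G') := h
  rw [h', coeff_map]
  exact (coeff β (subst (fun i => (⟨q i, hq i⟩ : K)) G')).2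

/-- T7. the forms in the new coordinates are generic -/
theorem indep_change {ι : Type} [Fintype ι] {e : ℕ} (hcard : Fintype.card ι + e = n + 1)
    {F : ι → MvPolynomial (Fin (n + 2)) ℂ} (hF : ∀ τ, (F τ).IsHomogeneous 3)
    {a : Fin e → Fin (n + 2) → ℂ}
    (hind : AlgebraicIndependent ℚ (Sum.elim
      (fun q : ι × {β : Fin (n + 2) →₀ ℕ // β.degree = 3} => coeff q.2.1 (F q.1))
      (fun q : Fin e × Fin (n + 2) => a q.1 q.2)))
    {p : Fin (n + 2) → ℂ} (hp0 : p 0 = 1) (hp : ∀ τ, eval p (F τ) = 0)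
    (ha : ∀ k, ∑ i, a k i * p i = 0) :
    AlgebraicIndependent ℚ (fun q : ι × Mon' n => coeff q.2.1 (subst p (F q.1))) := by
  classical
  have := X6H_finite n
  have := X6H_finite' n
  let _ : Fintype {β : Fin (n + 2) →₀ ℕ // β.degree = 3} := Fintype.ofFinite _
  let _ : Fintype (Mon' n) := Fintype.ofFinite _
  let y : (ι × Mon' n) ⊕ ({i : Fin (n + 2) // i ≠ 0} ⊕ (Fin e × {i : Fin (n + 2) // i ≠ 0})) → ℂ :=
    Sum.elim (fun q => coeff q.2.1 (subst p (F q.1)))
      (Sum.elim (fun i => p i.1) (fun q => a q.1 q.2.1))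
  set K := IntermediateField.adjoin ℚ (Set.range y) with hK
  have hyK : ∀ i, y i ∈ K := fun i => IntermediateField.subset_adjoin _ _ ⟨i, rfl⟩
  have hpK : ∀ i, p i ∈ K := by
    intro i
    by_cases hi : i = 0
    · rw [hi, hp0]; exact one_mem K
    · exact hyK (Sum.inr (Sum.inl ⟨i, hi⟩))
  have haK : ∀ k i, i ≠ 0 → a k i ∈ K := fun k i hi => hyK (Sum.inr (Sum.inr (k, ⟨i, hi⟩)))
  have haK' : ∀ k i, a k i ∈ K := by
    intro k i
    by_cases hi : i = 0
    · have h := ha k
      rw [Fintype.sum_eq_add_sum_compl 0, hp0, mul_one] at h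
      rw [hi, eq_neg_of_add_eq_zero_left h]
      refine neg_mem (sum_mem fun j hj => mul_mem (haK k j ?_) (hpK j))
      simpa using hj
    · exact haK k i hi
  have hGK : ∀ τ β, coeff β (subst p (F τ)) ∈ K := by
    intro τ β
    by_cases h3 : β.degree = 3
    · by_cases h0 : β = Finsupp.single 0 3
      · rw [h0, subst_coeff hp0 (hF τ), hp τ]; exact zero_mem K
      · exact hyK (Sum.inl (τ, ⟨β, h3, h0⟩))
    · rw [(subst_hom p (hF τ)).coeff_eq_zero h3]; exact zero_mem K
  have hxK : ∀ b, (Sum.elim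
      (fun q : ι × {β : Fin (n + 2) →₀ ℕ // β.degree = 3} => coeff q.2.1 (F q.1))
      (fun q : Fin e × Fin (n + 2) => a q.1 q.2)) b ∈ K := by
    rintro (⟨τ, β⟩ | ⟨k, i⟩)
    · show coeff β.1 (F τ) ∈ K
      rw [← X6H_subst_subst p (F τ)]
      exact X6H_coeff_mem K _ (fun i => neg_mem (hpK i)) _ (hGK τ) β.1
    · exact haK' k i
  have hc : Fintype.card ((ι × Mon' n) ⊕ ({i : Fin (n + 2) // i ≠ 0} ⊕
      (Fin e × {i : Fin (n + 2) // i ≠ 0}))) ≤
      Fintype.card ((ι × {β : Fin (n + 2) →₀ ℕ // β.degree = 3}) ⊕ (Fin e × Fin (n + 2))) := by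
    have h1 := X6H_card n
    have h2 : Fintype.card {i : Fin (n + 2) // i ≠ 0} = n + 1 := by
      rw [Fintype.card_subtype_compl, Fintype.card_fin, Fintype.card_unique]
      rfl
    simp only [Fintype.card_sum, Fintype.card_prod, Fintype.card_fin, h2]
    have h3 := Nat.mul_le_mul_left (Fintype.card ι) h1
    rw [Nat.mul_add, Nat.mul_one] at h3
    have h4 : e * (n + 2) = e * (n + 1) + e := by ring
    rw [h4]
    omega
  have hy := indep_count hc hind hxK
  exact hy.comp Sum.inl Sum.inl_injective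

end

end Pool.Agent.H900.X6
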