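import Pool.Agent.H900.X6.Df

set_option autoImplicit false

namespace Pool.Agent.H900.X6

open MvPolynomial Module

noncomputable section

variable {n : ℕ}

/-- independence in towers of fields -/
theorem X6J_tow {ι κ : Type} {A K M : Type} [CommRing A] [Algebra ℚ A] [Field K] [Field M]
    [CharZero M] [Algebra K M] (φ : A →+* K) (hφ : Function.Injective φ) {c : ι → A} {z : κ → M}
    (hc : AlgebraicIndependent ℚ c) (hz : AlgebraicIndependent K z) :
    AlgebraicIndependent ℚ (Sum.elim (fun i => algebraMap K M (φ (c i))) z) := by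
  have hK : CharZero K :=
    (RingHom.charZero_iff (algebraMap K M).injective).2 inferInstance
  have h3 : AlgebraicIndependent ℚ (fun i => φ (c i)) :=
    hc.map' (f := φ.toRatAlgHom) hφ
  have h4 := AlgebraicIndependent.sumElim_comp h3 hz
  have h5 := h4.comp Sum.swap (fun a b h => by
    rw [← Sum.swap_swap a, h, Sum.swap_swap])
  have e : (Sum.elim z (algebraMap K M ∘ fun i => φ (c i)) ∘ Sum.swap) =
      Sum.elim (fun i => algebraMap K M (φ (c i))) z := by
    funext q
    rcases q with β | i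
    · rfl
    · rfl
  rw [e] at h5
  exact h5

/-- independence of the preimages -/
theorem X6J_ofc {ι : Type} {A B : Type} [CommRing A] [Algebra ℚ A] [CommRing B] [Algebra ℚ B]
    (φ : A →+* B) {c : ι → A} (h : AlgebraicIndependent ℚ (fun i => φ (c i))) :
    AlgebraicIndependent ℚ c := AlgebraicIndependent.of_comp φ.toRatAlgHom h

/-- the coefficients as polynomials in the parameters -/
def X6J_c {s : ℕ} {T : Finset (Finset (Fin s))}
    (F : {τ // τ ∈ T} → MvPolynomial (Fin (n + 2)) ℂ) (β : Mon' n) : MvPolynomial (Fin s) ℂ :=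
  ∑ τ : {τ // τ ∈ T}, C (coeff β.1 (F τ)) * ∏ j ∈ τ.1, X j

/-- the value of the coefficients at the origin -/
theorem X6J_eval {s : ℕ} {T : Finset (Finset (Fin s))} (hT : ∅ ∈ T)
    (F : {τ // τ ∈ T} → MvPolynomial (Fin (n + 2)) ℂ) (β : Mon' n) :
    eval (0 : Fin s → ℂ) (X6J_c F β) = coeff β.1 (F ⟨∅, hT⟩) := by
  unfold X6J_c
  rw [map_sum, Finset.sum_eq_single (⟨∅, hT⟩ : {τ // τ ∈ T})]
  · rw [map_mul, eval_C, Finset.prod_empty, map_one, mul_one]
  · intro τ _ hτ
    have h1 : τ.1.Nonempty := by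
      rw [Finset.nonempty_iff_ne_empty]
      intro h
      exact hτ (Subtype.ext h)
    obtain ⟨j, hj⟩ := h1
    rw [map_mul, map_prod, Finset.prod_eq_zero hj (by rw [eval_X]; rfl), mul_zero]
  · intro h
    exact absurd (Finset.mem_univ _) h

theorem X6J_indep {s : ℕ} {T : Finset (Finset (Fin s))} (hT : ∅ ∈ T)
    {F : {τ // τ ∈ T} → MvPolynomial (Fin (n + 2)) ℂ}
    (hind : AlgebraicIndependent ℚ
      (fun q : {τ // τ ∈ T} × Mon' n => coeff q.2.1 (F q.1))) :
    AlgebraicIndependent ℚ (X6J_c F) := by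
  have h1 : AlgebraicIndependent ℚ (fun β : Mon' n => coeff β.1 (F ⟨∅, hT⟩)) :=
    hind.comp (fun β : Mon' n => ((⟨∅, hT⟩ : {τ // τ ∈ T}), β)) (fun β β' h => (Prod.ext_iff.1 h).2)
  apply X6J_ofc (eval (0 : Fin s → ℂ))
  simp only [X6J_eval hT]
  exact h1

theorem X6J_coeff {s : ℕ} {T : Finset (Finset (Fin s))}
    (F : {τ // τ ∈ T} → MvPolynomial (Fin (n + 2)) ℂ) {K M : Type} [Field K] [Field M]
    [Algebra (MvPolynomial (Fin s) ℂ) K] [Algebra ℂ K]
    [IsScalarTower ℂ (MvPolynomial (Fin s) ℂ) K] [Algebra K M] (β : Mon' n) :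
    algebraMap K M (algebraMap (MvPolynomial (Fin s) ℂ) K (X6J_c F β)) =
      coeff β.1 (∑ τ : {τ // τ ∈ T},
        C (algebraMap K M (∏ j ∈ τ.1, algebraMap (MvPolynomial (Fin s) ℂ) K (X j))) *
        map ((algebraMap K M).comp (algebraMap ℂ K)) (F τ)) := by
  rw [coeff_sum]
  unfold X6J_c
  rw [map_sum, map_sum]
  refine Finset.sum_congr rfl fun τ _ => ?_
  rw [coeff_C_mul, coeff_map, map_mul, map_mul, map_prod, RingHom.comp_apply,
    IsScalarTower.algebraMap_apply ℂ (MvPolynomial (Fin s) ℂ) K, MvPolynomial.algebraMap_eq,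
    mul_comm]

/-- T9. forms over the field of rational functions -/
theorem indep_fam {s : ℕ} {T : Finset (Finset (Fin s))} (hT : ∅ ∈ T)
    {F : {τ // τ ∈ T} → MvPolynomial (Fin (n + 2)) ℂ}
    (hind : AlgebraicIndependent ℚ
      (fun q : {τ // τ ∈ T} × Mon' n => coeff q.2.1 (F q.1)))
    {M : Type} [Field M] [CharZero M] [Algebra (FractionRing (MvPolynomial (Fin s) ℂ)) M]
    {z : Fin n → M}
    (hz : AlgebraicIndependent (FractionRing (MvPolynomial (Fin s) ℂ)) z) :
    AlgebraicIndependent ℚ (Sum.elim (fun β : Mon' n =>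
      coeff β.1 (∑ τ : {τ // τ ∈ T},
        C (algebraMap (FractionRing (MvPolynomial (Fin s) ℂ)) M
          (∏ j ∈ τ.1, algebraMap (MvPolynomial (Fin s) ℂ) _ (X j))) *
        map ((algebraMap (FractionRing (MvPolynomial (Fin s) ℂ)) M).comp
          (algebraMap ℂ (FractionRing (MvPolynomial (Fin s) ℂ)))) (F τ))) z) := by
  have h := X6J_tow (algebraMap (MvPolynomial (Fin s) ℂ) (FractionRing (MvPolynomial (Fin s) ℂ)))
    (IsFractionRing.injective _ _) (X6J_indep hT hind) hz
  have e : (fun β : Mon' n => algebraMap (FractionRing (MvPolynomial (Fin s) ℂ)) M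
      (algebraMap (MvPolynomial (Fin s) ℂ) (FractionRing (MvPolynomial (Fin s) ℂ)) (X6J_c F β))) =
      fun β : Mon' n =>
      coeff β.1 (∑ τ : {τ // τ ∈ T},
        C (algebraMap (FractionRing (MvPolynomial (Fin s) ℂ)) M
          (∏ j ∈ τ.1, algebraMap (MvPolynomial (Fin s) ℂ) _ (X j))) *
        map ((algebraMap (FractionRing (MvPolynomial (Fin s) ℂ)) M).comp
          (algebraMap ℂ (FractionRing (MvPolynomial (Fin s) ℂ)))) (F τ)) :=
    funext fun β => X6J_coeff F β
  rw [e] at h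
  exact h

end

end Pool.Agent.H900.X6
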