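import Pool.Agent.H900.X6.Df

set_option autoImplicit false

namespace Pool.Agent.H900.X6

open MvPolynomial Module

noncomputable section

theorem X6K_basis {α β : Type} [Finite α] [Finite β] {x : α → ℂ}
    (hx : AlgebraicIndependent ℚ x) :
    ∃ a : β → ℂ, AlgebraicIndependent (Algebra.adjoin ℚ (Set.range x)) a := by
  obtain ⟨s, hs⟩ := exists_isTranscendenceBasis (Algebra.adjoin ℚ (Set.range x)) ℂ
  have hc : Cardinal.mk (Algebra.adjoin ℚ (Set.range x)) ≤ Cardinal.aleph0 := by
    rw [← Cardinal.mk_congr hx.aevalEquiv.toEquiv]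
    refine (MvPolynomial.cardinalMk_le_max).trans ?_
    simp
  have hC : Cardinal.aleph0 < Cardinal.mk ℂ := by
    rw [Cardinal.mk_complex]
    exact Cardinal.aleph0_lt_continuum
  have he := IsAlgClosed.cardinal_eq_cardinal_transcendence_basis_of_aleph0_lt' _ hs hc hC
  have hinf : Infinite s := by
    rw [Cardinal.infinite_iff, ← he]
    exact hC.le
  obtain ⟨n, ⟨e⟩⟩ := Finite.exists_equiv_fin β
  refine ⟨fun b => ((Infinite.natEmbedding s (e b).1 : s) : ℂ), ?_⟩
  refine hs.1.comp (fun b => Infinite.natEmbedding s (e b).1) ?_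
  intro b b' h
  exact e.injective (Fin.ext ((Infinite.natEmbedding s).injective h))

/-- T11. more independent numbers -/
theorem more_indep {α β : Type} [Finite α] [Finite β] {x : α → ℂ}
    (hx : AlgebraicIndependent ℚ x) : ∃ a : β → ℂ, AlgebraicIndependent ℚ (Sum.elim x a) := by
  obtain ⟨a, ha⟩ := X6K_basis (β := β) hx
  refine ⟨a, ?_⟩
  have h := (hx.sumElim ha).comp (Equiv.sumComm α β) (Equiv.sumComm α β).injective
  have e : Sum.elim a x ∘ (Equiv.sumComm α β) = Sum.elim x a := by
    funext i
    rcases i with i | i <;> rfl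
  rwa [e] at h

end

end Pool.Agent.H900.X6
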