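import Pool.Agent.H900.X6.D
import Pool.Agent.H900.X6.E
import Pool.Agent.H900.X6.F
import Pool.Agent.H900.X6.H
import Pool.Agent.H900.X6.J
import Pool.Agent.H900.X6.K

/-! # Very general families of cubics have parametrizations of degree at most six -/

set_option autoImplicit false
set_option linter.unusedSectionVars false
set_option linter.unusedVariables false

namespace Pool.Agent.H900.X6

open MvPolynomial Module

noncomputable section

theorem subst_map {n : ℕ} {R S : Type} [CommRing R] [CommRing S] (φ : R →+* S)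
    (p : Fin (n + 2) → R) (F : MvPolynomial (Fin (n + 2)) R) :
    subst (fun i => φ (p i)) (map φ F) = map φ (subst p F) := by
  have h : ((aeval (fun i => if i = 0 then (X 0 : MvPolynomial (Fin (n + 2)) S) else
      X i + C (φ (p i)) * X 0)).toRingHom.comp (map φ)) =
      (map φ).comp (aeval (fun i => if i = 0 then (X 0 : MvPolynomial (Fin (n + 2)) R) else
        X i + C (p i) * X 0)).toRingHom := by
    refine MvPolynomial.ringHom_ext ?_ ?_
    · intro r
      simp [MvPolynomial.algebraMap_eq]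
    · intro i
      by_cases hi : i = 0
      · simp [hi]
      · simp [hi]
  exact congrArg (fun ψ => ψ F) h

theorem subst_add' {n : ℕ} {R : Type} [CommRing R] {ι : Type} (s : Finset ι) (p : Fin (n + 2) → R)
    (c : ι → R) (F : ι → MvPolynomial (Fin (n + 2)) R) :
    subst p (∑ τ ∈ s, C (c τ) * F τ) = ∑ τ ∈ s, C (c τ) * subst p (F τ) := by
  unfold subst
  rw [map_sum]
  refine Finset.sum_congr rfl fun τ _ => ?_
  rw [map_mul]
  congr 1
  rw [← MvPolynomial.algebraMap_eq, AlgHom.commutes, MvPolynomial.algebraMap_eq]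

theorem eval_e0_subst {n : ℕ} {p : Fin (n + 2) → ℂ} (hp0 : p 0 = 1)
    (F : MvPolynomial (Fin (n + 2)) ℂ) : eval (e0 n ℂ) (subst p F) = eval p F := by
  have h := subst_point p F (e0 n ℂ)
  rw [← MvPolynomial.coe_aeval_eq_eval, ← MvPolynomial.coe_aeval_eq_eval]
  show aeval (e0 n ℂ) (subst p F) = aeval p F
  rw [← h]
  congr 2
  funext i
  by_cases hi : i = 0
  · subst hi
    simp [e0, hp0]
  · simp [e0, hi]

theorem indep_rename {n e : ℕ} {ι : Type} (σ : Equiv.Perm (Fin (n + 2)))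
    {F : ι → MvPolynomial (Fin (n + 2)) ℂ} {a : Fin e → Fin (n + 2) → ℂ}
    (hind : AlgebraicIndependent ℚ (Sum.elim
      (fun q : ι × {β : Fin (n + 2) →₀ ℕ // β.degree = 3} => coeff q.2.1 (F q.1))
      (fun q : Fin e × Fin (n + 2) => a q.1 q.2))) :
    AlgebraicIndependent ℚ (Sum.elim
      (fun q : ι × {β : Fin (n + 2) →₀ ℕ // β.degree = 3} => coeff q.2.1 (rename σ (F q.1)))
      (fun q : Fin e × Fin (n + 2) => a q.1 (σ q.2))) := by
  let m : {β : Fin (n + 2) →₀ ℕ // β.degree = 3} → {β : Fin (n + 2) →₀ ℕ // β.degree = 3} :=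
    fun β => ⟨β.1.mapDomain σ.symm, by
      rw [Finsupp.degree_mapDomain]
      exact β.2⟩
  have hm : Function.Injective m := by
    intro β β' h
    have h1 := congrArg Subtype.val h
    exact Subtype.ext (Finsupp.mapDomain_injective σ.symm.injective h1)
  let w : (ι × {β : Fin (n + 2) →₀ ℕ // β.degree = 3}) ⊕ (Fin e × Fin (n + 2)) →
      (ι × {β : Fin (n + 2) →₀ ℕ // β.degree = 3}) ⊕ (Fin e × Fin (n + 2)) :=
    Sum.map (fun q => (q.1, m q.2)) (fun q => (q.1, σ q.2))
  have hw : Function.Injective w := by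
    refine Function.Injective.sumMap ?_ ?_
    · rintro ⟨a, b⟩ ⟨a', b'⟩ h
      obtain ⟨h1, h2⟩ := Prod.mk.inj h
      exact Prod.ext h1 (hm h2)
    · rintro ⟨a, b⟩ ⟨a', b'⟩ h
      obtain ⟨h1, h2⟩ := Prod.mk.inj h
      exact Prod.ext h1 (σ.injective h2)
  have h := hind.comp w hw
  convert h using 1
  funext x
  rcases x with ⟨τ, β⟩ | ⟨k, i⟩
  · show coeff β.1 (rename σ (F τ)) = coeff (β.1.mapDomain σ.symm) (F τ)
    have h1 := coeff_rename_mapDomain (f := (σ : Fin (n + 2) → Fin (n + 2))) σ.injective (F τ)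
      (β.1.mapDomain σ.symm)
    rw [← Finsupp.mapDomain_comp] at h1
    rw [← h1]
    congr 1
    have : (σ ∘ σ.symm : Fin (n + 2) → Fin (n + 2)) = id := by funext i; simp
    rw [this, Finsupp.mapDomain_id]
  · rfl

/-- the field of the parameters -/
abbrev Kp (s : ℕ) : Type := FractionRing (MvPolynomial (Fin s) ℂ)

/-- the monomial with the exponent `τ` -/
def tm {s : ℕ} (τ : Finset (Fin s)) : Kp s :=
  ∏ j ∈ τ, algebraMap (MvPolynomial (Fin s) ℂ) (Kp s) (X j)

theorem fin_mon (n : ℕ) : Finite {β : Fin (n + 2) →₀ ℕ // β.degree = 3} := by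
  classical
  have : Set.Finite {β : Fin (n + 2) →₀ ℕ | β.degree = 3} := by
    refine Set.Finite.subset (Finset.finite_toSet
      (Finset.finsuppAntidiag (Finset.univ : Finset (Fin (n + 2))) 3)) ?_
    intro β hβ
    have hβ' : β.degree = 3 := hβ
    rw [Finset.mem_coe, Finset.mem_finsuppAntidiag]
    refine ⟨?_, Finset.subset_univ _⟩
    rw [← hβ', Finsupp.degree_eq_sum]
  exact this.to_subtype

/-- the change of coordinates -/
theorem exists_coord {n : ℕ} {ι : Type} [Fintype ι] (hcard0 : Fintype.card ι ≤ n + 1)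
    {F : ι → MvPolynomial (Fin (n + 2)) ℂ} (hF : ∀ τ, (F τ).IsHomogeneous 3)
    (hind : AlgebraicIndependent ℚ
      (fun q : ι × {β : Fin (n + 2) →₀ ℕ // β.degree = 3} => coeff q.2.1 (F q.1))) :
    ∃ (σ : Equiv.Perm (Fin (n + 2))) (p1 : Fin (n + 2) → ℂ), (∀ i, σ (σ i) = i) ∧ p1 0 = 1 ∧
      (∀ τ, eval p1 (rename σ (F τ)) = 0) ∧
      AlgebraicIndependent ℚ
        (fun q : ι × Mon' n => coeff q.2.1 (subst p1 (rename σ (F q.1)))) := by
  classical
  have hfin := fin_mon n
  have hfin2 : Finite (ι × {β : Fin (n + 2) →₀ ℕ // β.degree = 3}) := inferInstance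
  set e := n + 1 - Fintype.card ι with he
  have hcard : Fintype.card ι + e = n + 1 := by omega
  obtain ⟨a, ha⟩ : ∃ a : Fin e → Fin (n + 2) → ℂ, AlgebraicIndependent ℚ (Sum.elim
      (fun q : ι × {β : Fin (n + 2) →₀ ℕ // β.degree = 3} => coeff q.2.1 (F q.1))
      (fun q : Fin e × Fin (n + 2) => a q.1 q.2)) := by
    obtain ⟨a', ha'⟩ := more_indep (β := Fin e × Fin (n + 2)) hind
    exact ⟨fun k i => a' (k, i), ha'⟩
  obtain ⟨p, hp0, hpF, hpa⟩ : ∃ p : Fin (n + 2) → ℂ, p ≠ 0 ∧ (∀ τ, eval p (F τ) = 0) ∧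
      ∀ k, ∑ i, a k i * p i = 0 := by
    obtain ⟨p, hp0, hp⟩ := base_point (n := n) (Q := ι ⊕ Fin e)
      (by rw [Fintype.card_sum, Fintype.card_fin]; omega)
      (Sum.elim F (fun k => ∑ i, C (a k i) * X i)) (Sum.elim (fun _ => 3) (fun _ => 1))
      (by rintro (q | q) <;> simp)
      (by
        rintro (q | q)
        · exact hF q
        · refine IsHomogeneous.sum _ _ _ fun i _ => ?_
          have := (isHomogeneous_C (Fin (n + 2)) (a q i)).mul (isHomogeneous_X ℂ i)
          simpa using this)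
    refine ⟨p, hp0, fun τ => hp (Sum.inl τ), fun k => ?_⟩
    have h1 := hp (Sum.inr k)
    rw [Sum.elim_inr, map_sum] at h1
    rw [← h1]
    exact Finset.sum_congr rfl fun i _ => by rw [map_mul, eval_C, eval_X]
  obtain ⟨i0, hi0⟩ : ∃ i, p i ≠ 0 := by
    by_contra hcon
    push Not at hcon
    exact hp0 (funext hcon)
  obtain ⟨σ, hσσ, hσ0⟩ : ∃ σ : Equiv.Perm (Fin (n + 2)), (∀ i, σ (σ i) = i) ∧ σ 0 = i0 :=
    ⟨Equiv.swap 0 i0, fun i => Equiv.swap_apply_self _ _ _, Equiv.swap_apply_left _ _⟩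
  obtain ⟨p1, hp1⟩ : ∃ p1 : Fin (n + 2) → ℂ, ∀ i, p1 i = p (σ i) * (p i0)⁻¹ := ⟨_, fun _ => rfl⟩
  have hp10 : p1 0 = 1 := by
    rw [hp1, hσ0]
    exact mul_inv_cancel₀ hi0
  have hF1 : ∀ τ, (rename σ (F τ)).IsHomogeneous 3 := fun τ => (hF τ).rename_isHomogeneous
  have hev1 : ∀ τ, eval p1 (rename σ (F τ)) = 0 := by
    intro τ
    rw [eval_rename]
    have h1 : (p1 ∘ σ : Fin (n + 2) → ℂ) = fun i => (p i0)⁻¹ * p i + 0 * p i := by
      funext i
      rw [Function.comp_apply, hp1, hσσ, zero_mul, add_zero, mul_comm]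
    rw [h1, taylor (hF τ), hpF]
    ring
  have ha1 : ∀ k, ∑ i, a k (σ i) * p1 i = 0 := by
    intro k
    have h2 : ∑ i, a k (σ i) * p1 i = (∑ i, a k (σ i) * p (σ i)) * (p i0)⁻¹ := by
      rw [Finset.sum_mul]
      exact Finset.sum_congr rfl fun i _ => by rw [hp1, mul_assoc]
    rw [h2, Equiv.sum_comp σ (fun i => a k i * p i), hpa, zero_mul]
  have hind1 := indep_rename (e := e) (ι := ι) σ (F := F) (a := a) ha
  exact ⟨σ, p1, hσσ, hp10, hev1,
    indep_change hcard (F := fun τ => rename σ (F τ)) (a := fun k i => a k (σ i))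
      hF1 hind1 hp10 hev1 ha1⟩

theorem z_indep (n : ℕ) (K : Type) [Field K] :
    AlgebraicIndependent K (fun i : Fin n => algebraMap (MvPolynomial (Fin n) K)
      (FractionRing (MvPolynomial (Fin n) K)) (X i)) := by
  have h1 := (MvPolynomial.algebraicIndependent_X (Fin n) K)
  exact h1.map' (f := IsScalarTower.toAlgHom K (MvPolynomial (Fin n) K)
    (FractionRing (MvPolynomial (Fin n) K))) (IsFractionRing.injective _ _)

theorem z_top (n : ℕ) (K : Type) [Field K] :
    IntermediateField.adjoin K (Set.range (fun i : Fin n => algebraMap (MvPolynomial (Fin n) K)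
      (FractionRing (MvPolynomial (Fin n) K)) (X i))) = ⊤ := by
  set z : Fin n → FractionRing (MvPolynomial (Fin n) K) := fun i =>
    algebraMap (MvPolynomial (Fin n) K) (FractionRing (MvPolynomial (Fin n) K)) (X i) with hz
  rw [eq_top_iff]
  intro x _
  obtain ⟨P, Q, hQ, rfl⟩ := IsFractionRing.div_surjective (A := MvPolynomial (Fin n) K) x
  have hmem : ∀ P : MvPolynomial (Fin n) K, algebraMap (MvPolynomial (Fin n) K)
      (FractionRing (MvPolynomial (Fin n) K)) P ∈ IntermediateField.adjoin K (Set.range z) := by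
    intro P
    have h1 : algebraMap (MvPolynomial (Fin n) K) (FractionRing (MvPolynomial (Fin n) K)) P =
        aeval z P := by
      have h2 := (MvPolynomial.aeval_unique
        (IsScalarTower.toAlgHom K (MvPolynomial (Fin n) K)
          (FractionRing (MvPolynomial (Fin n) K))))
      exact congrArg (fun ψ => ψ P) h2
    rw [h1]
    exact (IntermediateField.algebra_adjoin_le_adjoin _ _)
      (by rw [Algebra.adjoin_range_eq_range_aeval]; exact ⟨P, rfl⟩)
  exact div_mem (hmem P) (hmem Q)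

/-- the family over the field of the parameters -/
def fm {s n : ℕ} {T : Finset (Finset (Fin s))}
    (F : {τ // τ ∈ T} → MvPolynomial (Fin (n + 2)) ℂ) : MvPolynomial (Fin (n + 2)) (Kp s) :=
  ∑ τ : {τ // τ ∈ T}, C (tm τ.1) * map (algebraMap ℂ (Kp s)) (F τ)

theorem fm_subst {s n : ℕ} {T : Finset (Finset (Fin s))} (p : Fin (n + 2) → ℂ)
    (F : {τ // τ ∈ T} → MvPolynomial (Fin (n + 2)) ℂ) :
    fm (fun τ => subst p (F τ)) = subst (fun i => algebraMap ℂ (Kp s) (p i)) (fm F) := by
  unfold fm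
  rw [subst_add']
  refine Finset.sum_congr rfl fun τ _ => ?_
  rw [subst_map]

theorem fm_hom {s n : ℕ} {T : Finset (Finset (Fin s))}
    {F : {τ // τ ∈ T} → MvPolynomial (Fin (n + 2)) ℂ} (hF : ∀ τ, (F τ).IsHomogeneous 3) :
    (fm F : MvPolynomial (Fin (n + 2)) (Kp s)).IsHomogeneous 3 := by
  unfold fm
  refine IsHomogeneous.sum _ _ _ fun τ _ => ?_
  have := (isHomogeneous_C (Fin (n + 2)) (tm τ.1)).mul ((hF τ).map (algebraMap ℂ (Kp s)))
  simpa using this

theorem fm_e0 {s n : ℕ} {T : Finset (Finset (Fin s))}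
    {F : {τ // τ ∈ T} → MvPolynomial (Fin (n + 2)) ℂ} (hF : ∀ τ, eval (e0 n ℂ) (F τ) = 0) :
    eval (e0 n (Kp s)) (fm F) = 0 := by
  unfold fm
  rw [map_sum]
  refine Finset.sum_eq_zero fun τ _ => ?_
  rw [map_mul]
  have h1 : (e0 n (Kp s)) = fun i => algebraMap ℂ (Kp s) (e0 n ℂ i) := by
    funext i
    unfold e0
    by_cases hi : i = 0
    · subst hi; simp
    · simp [hi]
  have h2 : eval (e0 n (Kp s)) (map (algebraMap ℂ (Kp s)) (F τ)) =
      algebraMap ℂ (Kp s) (eval (e0 n ℂ) (F τ)) := by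
    rw [h1, eval_map]
    exact (MvPolynomial.eval₂_comp_left (algebraMap ℂ (Kp s)) (RingHom.id ℂ) (e0 n ℂ) (F τ)).symm
  rw [h2, hF, map_zero, mul_zero]

theorem fm_NN {s n : ℕ} {T : Finset (Finset (Fin s))} (h0 : ∅ ∈ T) (hn : 2 ≤ n)
    {F : {τ // τ ∈ T} → MvPolynomial (Fin (n + 2)) ℂ} (hF : ∀ τ, (F τ).IsHomogeneous 3)
    (hc : ∀ τ, coeff (Finsupp.single 0 3) (F τ) = 0)
    (hind : AlgebraicIndependent ℚ
      (fun q : {τ // τ ∈ T} × Mon' n => coeff q.2.1 (F q.1)))
    {M : Type} [Field M] [Algebra (Kp s) M] {z : Fin n → M}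
    (hz : AlgebraicIndependent (Kp s) z) :
    NN (map (algebraMap (Kp s) M) (fm F)) (z ⟨0, by omega⟩) z ≠ 0 := by
  have hcz : CharZero M := charZero_of_injective_algebraMap (algebraMap (Kp s) M).injective
  refine NN_gen hn ((fm_hom hF).map _) ?_ z ?_
  · rw [coeff_map]
    have h1 : coeff (Finsupp.single 0 3) (fm F : MvPolynomial (Fin (n + 2)) (Kp s)) = 0 := by
      unfold fm
      rw [coeff_sum]
      refine Finset.sum_eq_zero fun τ _ => ?_
      rw [coeff_C_mul, coeff_map, hc, map_zero, mul_zero]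
    rw [h1, map_zero]
  · have h1 := indep_fam h0 hind hz
    have h2 : map (algebraMap (Kp s) M) (fm F) = (∑ τ : {τ // τ ∈ T},
        C (algebraMap (FractionRing (MvPolynomial (Fin s) ℂ)) M
          (∏ j ∈ τ.1, algebraMap (MvPolynomial (Fin s) ℂ) _ (X j))) *
        map ((algebraMap (FractionRing (MvPolynomial (Fin s) ℂ)) M).comp
          (algebraMap ℂ (FractionRing (MvPolynomial (Fin s) ℂ)))) (F τ)) := by
      unfold fm
      rw [map_sum]
      refine Finset.sum_congr rfl fun τ _ => ?_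
      rw [map_mul, map_C, map_map]
      rfl
    rw [h2]
    exact h1

/-- **A parametrization of degree at most six.** -/
theorem attained {s n : ℕ} {T : Finset (Finset (Fin s))} (h0 : ∅ ∈ T) (hn : 2 ≤ n)
    (hT : T.card ≤ n + 1) {F : {τ // τ ∈ T} → MvPolynomial (Fin (n + 2)) ℂ}
    (hF : ∀ τ, (F τ).IsHomogeneous 3)
    (hind : AlgebraicIndependent ℚ
      (fun q : {τ // τ ∈ T} × {β : Fin (n + 2) →₀ ℕ // β.degree = 3} => coeff q.2.1 (F q.1))) :
    ∃ g : Fin (n + 2) → FractionRing (MvPolynomial (Fin n) (Kp s)), g ≠ 0 ∧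
      aeval g (fm F) = 0 ∧
      0 < finrank (IntermediateField.adjoin (Kp s) {y | ∃ i j, y = g i / g j})
        (FractionRing (MvPolynomial (Fin n) (Kp s))) ∧
      finrank (IntermediateField.adjoin (Kp s) {y | ∃ i j, y = g i / g j})
        (FractionRing (MvPolynomial (Fin n) (Kp s))) ≤ 6 := by
  classical
  obtain ⟨σ, p1, hσσ, hp10, hev1, hind2⟩ := exists_coord (by rw [Fintype.card_coe]; exact hT)
    hF hind
  have hF1 : ∀ τ, (rename σ (F τ)).IsHomogeneous 3 := fun τ => (hF τ).rename_isHomogeneous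
  set M := FractionRing (MvPolynomial (Fin n) (Kp s)) with hM
  have hN := fm_NN h0 hn (F := fun τ => subst p1 (rename σ (F τ)))
    (fun τ => subst_hom p1 (hF1 τ))
    (fun τ => by rw [subst_coeff hp10 (hF1 τ), hev1]) hind2 (z_indep n (Kp s))
  have hf2 := fm_hom (T := T) (s := s) (F := fun τ => subst p1 (rename σ (F τ)))
    (fun τ => subst_hom p1 (hF1 τ))
  have hf20 := fm_e0 (T := T) (s := s) (F := fun τ => subst p1 (rename σ (F τ)))
    (fun τ => by rw [eval_e0_subst hp10, hev1])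
  obtain ⟨hg0, hgf, hg1, hg6⟩ := fin_le hn hf2 hf20 _ (z_top n (Kp s)) hN
  generalize gg (map (algebraMap (Kp s) (FractionRing (MvPolynomial (Fin n) (Kp s))))
    (fm fun τ => subst p1 (rename σ (F τ)))) _ _ = g2 at hg0 hgf hg1 hg6
  let h : Fin (n + 2) → M := fun i => if i = 0 then g2 0 else
    g2 i + algebraMap (Kp s) M (algebraMap ℂ (Kp s) (p1 i)) * g2 0
  have hfield := subst_field (k := Kp s) (fun i => algebraMap ℂ (Kp s) (p1 i)) (g := g2) (h := h)
    (fun i => rfl) hg0
  have hset : {y | ∃ i j, y = (fun i => h (σ i)) i / (fun i => h (σ i)) j} =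
      {y | ∃ i j, y = h i / h j} := by
    ext y
    constructor
    · rintro ⟨i, j, rfl⟩
      exact ⟨σ i, σ j, rfl⟩
    · rintro ⟨i, j, rfl⟩
      exact ⟨σ i, σ j, by simp only [hσσ]⟩
  refine ⟨fun i => h (σ i), ?_, ?_, ?_, ?_⟩
  · intro hcon
    apply hg0
    have h1 : ∀ i, h i = 0 := by
      intro i
      have := congrFun hcon (σ i)
      simp only [hσσ] at this
      exact this
    have h2 : g2 0 = 0 := by
      have := h1 0
      simpa [h] using this
    funext i
    by_cases hi : i = 0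
    · rw [hi]; exact h2
    · have := h1 i
      simp only [h, if_neg hi, h2, mul_zero, add_zero] at this
      exact this
  · have h1 : aeval h (fm (fun τ => rename σ (F τ))) = 0 := by
      rw [← hgf, fm_subst]
      exact subst_point (fun i => algebraMap ℂ (Kp s) (p1 i)) _ g2
    have h2 : fm (fun τ => rename σ (F τ)) = rename σ (fm F : MvPolynomial _ (Kp s)) := by
      unfold fm
      rw [map_sum]
      refine Finset.sum_congr rfl fun τ _ => ?_
      rw [map_mul, rename_C]
      congr 1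
      exact map_rename _ _ _
    rw [h2, aeval_rename] at h1
    exact h1
  · rw [hset, hfield]
    exact hg1
  · rw [hset, hfield]
    exact hg6

end

end Pool.Agent.H900.X6
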