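import Pool.Agent.H900.X6.Df

set_option autoImplicit false

namespace Pool.Agent.H900.X6

open MvPolynomial Module

noncomputable section

variable {n : ℕ}

theorem X6A_peel {m k : ℕ} {R : Type} [CommRing R] {d : Fin m →₀ ℕ} (hd : d.degree = k + 1) :
    ∃ (i : Fin m) (d' : Fin m →₀ ℕ), d'.degree = k ∧
      ∀ c : R, monomial d c = X i * monomial d' c := by
  classical
  have h1 : ∃ i, d i ≠ 0 := by
    by_contra h
    push Not at h
    have h2 : d = 0 := Finsupp.ext h
    rw [h2, map_zero] at hd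
    omega
  obtain ⟨i, hi⟩ := h1
  have h3 : d = Finsupp.single i 1 + (d - Finsupp.single i 1) := by
    rw [add_tsub_cancel_of_le]
    rw [Finsupp.single_le_iff]
    omega
  refine ⟨i, d - Finsupp.single i 1, ?_, fun c => ?_⟩
  · have h4 := congrArg Finsupp.degree h3
    rw [map_add, Finsupp.degree_single, hd] at h4
    omega
  · rw [X, monomial_mul, ← h3, one_mul]

theorem X6A_mon {m : ℕ} {R : Type} [CommRing R] {d : Fin m →₀ ℕ} (hd : d.degree = 3) :
    ∃ i j l : Fin m, ∀ c : R, monomial d c = X i * (X j * (X l * C c)) := by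
  obtain ⟨i, d1, h1, e1⟩ := X6A_peel (R := R) hd
  obtain ⟨j, d2, h2, e2⟩ := X6A_peel (R := R) h1
  obtain ⟨l, d3, h3, e3⟩ := X6A_peel (R := R) h2
  have h4 : d3 = 0 := (Finsupp.degree_eq_zero_iff d3).1 h3
  refine ⟨i, j, l, fun c => ?_⟩
  rw [e1, e2, e3, h4]
  rfl

theorem X6A_add {R : Type} [CommRing R] (f g : MvPolynomial (Fin (n + 2)) R)
    (x y : Fin (n + 2) → R) : DD (f + g) x y = DD f x y + DD g x y := by
  unfold DD
  rw [← Finset.sum_add_distrib]
  refine Finset.sum_congr rfl fun i _ => ?_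
  rw [map_add, map_add, add_mul]

theorem X6A_zero {R : Type} [CommRing R] (x y : Fin (n + 2) → R) :
    DD (0 : MvPolynomial (Fin (n + 2)) R) x y = 0 := by
  unfold DD
  refine Finset.sum_eq_zero fun i _ => ?_
  rw [map_zero, map_zero, zero_mul]

theorem X6A_mul {R : Type} [CommRing R] (f g : MvPolynomial (Fin (n + 2)) R)
    (x y : Fin (n + 2) → R) :
    DD (f * g) x y = DD f x y * eval x g + eval x f * DD g x y := by
  unfold DD
  rw [Finset.sum_mul, Finset.mul_sum, ← Finset.sum_add_distrib]
  refine Finset.sum_congr rfl fun i _ => ?_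
  rw [pderiv_mul, map_add, map_mul, map_mul]
  ring

theorem X6A_C {R : Type} [CommRing R] (c : R) (x y : Fin (n + 2) → R) :
    DD (C c : MvPolynomial (Fin (n + 2)) R) x y = 0 := by
  unfold DD
  refine Finset.sum_eq_zero fun i _ => ?_
  rw [pderiv_C, map_zero, zero_mul]

theorem X6A_X {R : Type} [CommRing R] (j : Fin (n + 2)) (x y : Fin (n + 2) → R) :
    DD (X j : MvPolynomial (Fin (n + 2)) R) x y = y j := by
  classical
  unfold DD
  rw [Finset.sum_eq_single j]
  · rw [pderiv_X_self, map_one, one_mul]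
  · intro i _ hi
    rw [pderiv_X_of_ne hi.symm, map_zero, zero_mul]
  · intro h
    exact absurd (Finset.mem_univ j) h

theorem X6A_ind {R : Type} [CommRing R] {P : MvPolynomial (Fin (n + 2)) R → Prop} (h0 : P 0)
    (ha : ∀ f g, P f → P g → P (f + g))
    (hm : ∀ (i j l : Fin (n + 2)) (c : R), P (X i * (X j * (X l * C c))))
    {f : MvPolynomial (Fin (n + 2)) R} (hf : f.IsHomogeneous 3) : P f := by
  rw [f.as_sum]
  refine Finset.sum_induction _ P ha h0 fun d hd => ?_
  have h1 : d.degree = 3 := by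
    have h2 := hf (mem_support_iff.1 hd)
    have h3 : Finsupp.degree d = Finsupp.weight (fun _ => 1) d := by
      rw [← Finsupp.degree_eq_weight_one]
    rw [h3]
    exact h2
  obtain ⟨i, j, l, h⟩ := X6A_mon (R := R) h1
  rw [h]
  exact hm i j l _

/-- T1. Taylor expansion of a cubic form and Euler's identity -/
theorem taylor {R : Type} [CommRing R] {f : MvPolynomial (Fin (n + 2)) R} (hf : f.IsHomogeneous 3)
    (a b : R) (x y : Fin (n + 2) → R) :
    eval (fun i => a * x i + b * y i) f =
      a ^ 3 * eval x f + a ^ 2 * b * DD f x y + a * b ^ 2 * DD f y x + b ^ 3 * eval y f := by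
  refine X6A_ind (P := fun f => eval (fun i => a * x i + b * y i) f =
      a ^ 3 * eval x f + a ^ 2 * b * DD f x y + a * b ^ 2 * DD f y x + b ^ 3 * eval y f)
    ?_ ?_ ?_ hf
  · simp only [map_zero, X6A_zero]
    ring
  · intro f g h1 h2
    simp only [map_add, X6A_add, h1, h2]
    ring
  · intro i j l c
    simp only [map_mul, eval_X, eval_C, X6A_mul, X6A_X, X6A_C]
    ring

theorem euler {R : Type} [CommRing R] {f : MvPolynomial (Fin (n + 2)) R} (hf : f.IsHomogeneous 3)
    (x : Fin (n + 2) → R) : DD f x x = 3 * eval x f := by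
  refine X6A_ind (P := fun f => DD f x x = 3 * eval x f) ?_ ?_ ?_ hf
  · simp only [map_zero, X6A_zero]
    ring
  · intro f g h1 h2
    simp only [map_add, X6A_add, h1, h2]
    ring
  · intro i j l c
    simp only [map_mul, eval_X, eval_C, X6A_mul, X6A_X, X6A_C]
    ring

end

end Pool.Agent.H900.X6
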