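import Pool.Agent.H900.X6.Df
import Pool.Agent.H900.X6.A

set_option autoImplicit false

namespace Pool.Agent.H900.X6

open MvPolynomial Module

noncomputable section

variable {n : ℕ}

theorem X6B_ne1 (hn : 2 ≤ n) : (1 : Fin (n + 2)) ≠ Fin.last (n + 1) := by
  intro h
  have h1 := congrArg Fin.val h
  rw [Fin.val_one', Fin.val_last, Nat.mod_eq_of_lt (by omega)] at h1
  omega

theorem X6B_val2 (hn : 2 ≤ n) : ((2 : Fin (n + 2)) : ℕ) = 2 := by
  have h : ((2 : Fin (n + 2)) : ℕ) = 2 % (n + 2) := rfl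
  rw [h]
  exact Nat.mod_eq_of_lt (by omega)

theorem X6B_ne2 (hn : 2 ≤ n) : (2 : Fin (n + 2)) ≠ Fin.last (n + 1) := by
  intro h
  have h1 := congrArg Fin.val h
  rw [X6B_val2 hn, Fin.val_last] at h1
  omega

theorem X6B_ne12 (hn : 2 ≤ n) : (2 : Fin (n + 2)) ≠ 1 := by
  intro h
  have h1 := congrArg Fin.val h
  rw [X6B_val2 hn, Fin.val_one', Nat.mod_eq_of_lt (by omega)] at h1
  omega

theorem X6B_ev {R : Type} [CommRing R] (f : MvPolynomial (Fin (n + 2)) R) (hn : 2 ≤ n) (u : R) :
    DD f (e0 n R) (vv f u) = 0 := by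
  have h : ∀ i, eval (e0 n R) (pderiv i f) * vv f u i =
      (if i = Fin.last (n + 1) then LL f (Fin.last (n + 1)) * -(LL f 1 + u * LL f 2) else 0) +
      (if i = 1 then LL f 1 * LL f (Fin.last (n + 1)) else 0) +
      (if i = 2 then LL f 2 * (u * LL f (Fin.last (n + 1))) else 0) := by
    intro i
    change LL f i * vv f u i = _
    unfold vv
    by_cases h1 : i = Fin.last (n + 1)
    · subst h1
      rw [if_pos rfl, if_pos rfl, if_neg (X6B_ne1 hn).symm, if_neg (X6B_ne2 hn).symm, add_zero,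
        add_zero]
    · rw [if_neg h1, if_neg h1, zero_add]
      by_cases h2 : i = 1
      · subst h2
        rw [if_pos rfl, if_pos rfl, if_neg (X6B_ne12 hn).symm, add_zero]
      · rw [if_neg h2, if_neg h2, zero_add]
        by_cases h3 : i = 2
        · subst h3
          rw [if_pos rfl, if_pos rfl]
        · rw [if_neg h3, if_neg h3, mul_zero]
  unfold DD
  simp only [h, Finset.sum_add_distrib, Finset.sum_ite_eq', Finset.mem_univ, if_true]
  ring

theorem X6B_qq {R : Type} [CommRing R] (f : MvPolynomial (Fin (n + 2)) R) (u : R) :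
    qq f u = fun i => (- eval (vv f u) f) * e0 n R i + DD f (vv f u) (e0 n R) * vv f u i := by
  funext i
  unfold qq e0
  rw [Pi.single_apply]
  split_ifs <;> ring

theorem qq_zero {R : Type} [CommRing R] {f : MvPolynomial (Fin (n + 2)) R} (hn : 2 ≤ n)
    (hf : f.IsHomogeneous 3) (h0 : eval (e0 n R) f = 0) (u : R) : eval (qq f u) f = 0 := by
  rw [X6B_qq, taylor hf, h0, X6B_ev f hn]
  ring

theorem X6B_sv1 {R : Type} [CommRing R] (hn : 2 ≤ n) (z : Fin n → R) : sv z 1 = 0 := by
  unfold sv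
  rw [dif_neg]
  rw [Fin.val_one', Nat.mod_eq_of_lt (by omega)]
  omega

theorem X6B_svl {R : Type} [CommRing R] (z : Fin n → R) : sv z (Fin.last (n + 1)) = 0 := by
  unfold sv
  rw [dif_neg]
  rw [Fin.val_last]
  omega

theorem GG_ww {R : Type} [CommRing R] (f : MvPolynomial (Fin (n + 2)) R) (hn : 2 ≤ n) (u : R)
    (z : Fin n → R) : ∑ i, GG f u i * ww f u z i = 0 := by
  have h : ∀ i, GG f u i * ww f u z i =
      (if i = Fin.last (n + 1) then
        GG f u (Fin.last (n + 1)) * -(GG f u 1 + ∑ j, sv z j * GG f u j) else 0) +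
      (if i = 1 then GG f u 1 * GG f u (Fin.last (n + 1)) else 0) +
      sv z i * GG f u i * GG f u (Fin.last (n + 1)) := by
    intro i
    unfold ww
    by_cases h1 : i = Fin.last (n + 1)
    · subst h1
      rw [if_pos rfl, if_pos rfl, if_neg (X6B_ne1 hn).symm, X6B_svl, zero_mul, zero_mul, add_zero,
        add_zero]
    · rw [if_neg h1, if_neg h1, zero_add]
      by_cases h2 : i = 1
      · subst h2
        rw [if_pos rfl, if_pos rfl, X6B_sv1 hn, zero_mul, zero_mul, add_zero]
      · rw [if_neg h2, if_neg h2, zero_add]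
        ring
  simp only [h, Finset.sum_add_distrib, Finset.sum_ite_eq', Finset.mem_univ, if_true,
    ← Finset.sum_mul]
  ring

theorem X6B_gg {R : Type} [CommRing R] (f : MvPolynomial (Fin (n + 2)) R) (u : R)
    (z : Fin n → R) :
    gg f u z = fun i => eval (ww f u z) f * qq f u i + -(HH f u z) * ww f u z i := by
  funext i
  unfold gg
  ring

theorem X6B_qw {R : Type} [CommRing R] (f : MvPolynomial (Fin (n + 2)) R) (hn : 2 ≤ n) (u : R)
    (z : Fin n → R) : DD f (qq f u) (ww f u z) = 0 :=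
  GG_ww f hn u z

theorem gg_zero {R : Type} [CommRing R] {f : MvPolynomial (Fin (n + 2)) R} (hn : 2 ≤ n)
    (hf : f.IsHomogeneous 3) (h0 : eval (e0 n R) f = 0) (u : R) (z : Fin n → R) :
    eval (gg f u z) f = 0 := by
  rw [X6B_gg, taylor hf, qq_zero hn hf h0, X6B_qw f hn]
  change _ + _ * _ * HH f u z + _ = 0
  ring

theorem GG_gg {R : Type} [CommRing R] {f : MvPolynomial (Fin (n + 2)) R} (hn : 2 ≤ n)
    (hf : f.IsHomogeneous 3) (h0 : eval (e0 n R) f = 0) (u : R) (z : Fin n → R) :
    ∑ i, GG f u i * gg f u z i = 0 := by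
  have h : ∀ i, GG f u i * gg f u z i = eval (ww f u z) f * (GG f u i * qq f u i) -
      HH f u z * (GG f u i * ww f u z i) := by
    intro i
    unfold gg
    ring
  have h1 : ∑ i, GG f u i * qq f u i = 0 := by
    change DD f (qq f u) (qq f u) = 0
    rw [euler hf, qq_zero hn hf h0, mul_zero]
  simp only [h, Finset.sum_sub_distrib, ← Finset.mul_sum]
  rw [h1, GG_ww f hn u z]
  ring

end

end Pool.Agent.H900.X6
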