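import Pool.Agent.H900.X6.B
import Pool.Agent.H900.X6.C

/-! # X6-D: the degree of the parametrization is at most six (helper808) -/

set_option autoImplicit false

namespace Pool.Agent.H900.X6

open MvPolynomial Module

noncomputable section

variable {n : ℕ}

/-! black boxes -/



/-! the proof -/

section

variable {k M : Type} [Field k] [Field M] [Algebra k M]

theorem X6D_eval (K : IntermediateField k M) {σ : Type} (x : σ → M) (hx : ∀ i, x i ∈ K)
    (p : MvPolynomial σ k) : eval x (map (algebraMap k M) p) ∈ K := by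
  induction p using MvPolynomial.induction_on with
  | C a =>
    rw [map_C, eval_C]
    exact K.algebraMap_mem a
  | add p q hp hq =>
    rw [map_add, map_add]
    exact K.add_mem hp hq
  | mul_X p i hp =>
    rw [map_mul, map_X, map_mul, eval_X]
    exact K.mul_mem hp (hx i)

theorem X6D_pd (K : IntermediateField k M) {σ : Type} (x : σ → M) (hx : ∀ i, x i ∈ K)
    (p : MvPolynomial σ k) (i : σ) : eval x (pderiv i (map (algebraMap k M) p)) ∈ K := by
  rw [pderiv_map]
  exact X6D_eval K x hx _

theorem X6D_e0 (K : IntermediateField k M) (i : Fin (n + 2)) : e0 n M i ∈ K := by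
  unfold e0
  by_cases h : i = 0
  · subst h
    rw [Pi.single_eq_same]
    exact K.one_mem
  · rw [Pi.single_eq_of_ne h]
    exact K.zero_mem

theorem X6D_LL (K : IntermediateField k M) (f : MvPolynomial (Fin (n + 2)) k) (i : Fin (n + 2)) :
    LL (map (algebraMap k M) f) i ∈ K := X6D_pd K _ (X6D_e0 K) f i

theorem X6D_vv (K : IntermediateField k M) (f : MvPolynomial (Fin (n + 2)) k) {u : M} (hu : u ∈ K)
    (i : Fin (n + 2)) : vv (map (algebraMap k M) f) u i ∈ K := by
  unfold vv
  have h := X6D_LL K f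
  split_ifs
  · exact K.neg_mem (K.add_mem (h _) (K.mul_mem hu (h _)))
  · exact h _
  · exact K.mul_mem hu (h _)
  · exact K.zero_mem

theorem X6D_DD (K : IntermediateField k M) (f : MvPolynomial (Fin (n + 2)) k)
    {x y : Fin (n + 2) → M} (hx : ∀ i, x i ∈ K) (hy : ∀ i, y i ∈ K) :
    DD (map (algebraMap k M) f) x y ∈ K := by
  unfold DD
  exact K.sum_mem fun i _ => K.mul_mem (X6D_pd K x hx f i) (hy i)

theorem X6D_qq (K : IntermediateField k M) (f : MvPolynomial (Fin (n + 2)) k) {u : M} (hu : u ∈ K)
    (i : Fin (n + 2)) : qq (map (algebraMap k M) f) u i ∈ K := by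
  unfold qq
  have h := X6D_vv K f hu
  refine K.add_mem ?_ (K.mul_mem (X6D_DD K f h (X6D_e0 K)) (h i))
  split_ifs
  · exact K.neg_mem (X6D_eval K _ h f)
  · exact K.zero_mem

theorem X6D_comp (φ : Polynomial k →+* M) (hφ : ∀ a, φ (Polynomial.C a) = algebraMap k M a)
    (f : MvPolynomial (Fin (n + 2)) k) :
    map φ (map (Polynomial.C : k →+* Polynomial k) f) = map (algebraMap k M) f := by
  have h : φ.comp (Polynomial.C : k →+* Polynomial k) = algebraMap k M := RingHom.ext hφ
  rw [map_map, h]

/-- evaluation of `GG` -/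
theorem X6D_GG (f : MvPolynomial (Fin (n + 2)) k) (u : M) (i : Fin (n + 2)) :
    Polynomial.aeval u (GG (map (Polynomial.C : k →+* Polynomial k) f) Polynomial.X i) =
      GG (map (algebraMap k M) f) u i := by
  have h := GG_map ((Polynomial.aeval u : Polynomial k →ₐ[k] M) : Polynomial k →+* M)
    (map (Polynomial.C : k →+* Polynomial k) f) Polynomial.X i
  rw [X6D_comp _ (fun a => by simp)] at h
  simpa using h.symm

end

theorem X6D_ev {R S σ : Type} [CommRing R] [CommRing S] (φ : R →+* S) (x : σ → R)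
    (p : MvPolynomial σ R) : eval (fun i => φ (x i)) (map φ p) = φ (eval x p) := by
  induction p using MvPolynomial.induction_on with
  | C a => rw [map_C, eval_C, eval_C]
  | add p q hp hq => rw [map_add, map_add, map_add, map_add, hp, hq]
  | mul_X p i hp => rw [map_mul, map_X, map_mul, eval_X, map_mul, eval_X, map_mul, hp]

/-- the field generated by `u` over the field of ratios is everything -/
theorem X6D_mem {k M : Type} [Field k] [Field M] [Algebra k M] (hn : 2 ≤ n)
    (f : MvPolynomial (Fin (n + 2)) k) (z : Fin n → M) (K : IntermediateField k M) (j0 : Fin (n + 2))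
    (hu : z ⟨0, by omega⟩ ∈ K)
    (hq : qq (map (algebraMap k M) f) (z ⟨0, by omega⟩) 0 ≠ 0)
    (hG : GG (map (algebraMap k M) f) (z ⟨0, by omega⟩) (Fin.last (n + 1)) ≠ 0)
    (hH : HH (map (algebraMap k M) f) (z ⟨0, by omega⟩) z ≠ 0)
    (hj0 : gg (map (algebraMap k M) f) (z ⟨0, by omega⟩) z j0 ≠ 0)
    (hr : ∀ i, gg (map (algebraMap k M) f) (z ⟨0, by omega⟩) z i /
      gg (map (algebraMap k M) f) (z ⟨0, by omega⟩) z j0 ∈ K) (j : Fin n) : z j ∈ K := by
  have hqK := X6D_qq K f hu
  set u : M := z ⟨0, by omega⟩ with hudef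
  set fM := map (algebraMap k M) f with hfM
  by_cases hj : j.1 = 0
  · have : j = ⟨0, by omega⟩ := Fin.ext hj
    rw [this]
    exact hu
  · set i : Fin (n + 2) := ⟨j.1 + 1, by omega⟩ with hi
    have hil : i ≠ Fin.last (n + 1) := by
      intro h
      have := congrArg Fin.val h
      simp only [hi, Fin.val_last] at this
      omega
    have h1v : ((1 : Fin (n + 2)) : ℕ) = 1 := by simp
    have hi1 : i ≠ 1 := by
      intro h
      have := congrArg Fin.val h
      rw [h1v] at this
      simp only [hi] at this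
      omega
    have h1l : (1 : Fin (n + 2)) ≠ Fin.last (n + 1) := by
      intro h
      have := congrArg Fin.val h
      rw [h1v, Fin.val_last] at this
      omega
    have h0l : (0 : Fin (n + 2)) ≠ Fin.last (n + 1) := by
      intro h
      have := congrArg Fin.val h
      rw [Fin.val_zero, Fin.val_last] at this
      omega
    have h01 : (0 : Fin (n + 2)) ≠ 1 := by
      intro h
      have := congrArg Fin.val h
      rw [h1v, Fin.val_zero] at this
      omega
    have hs0 : sv z 0 = 0 := by
      unfold sv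
      rw [dif_neg]
      rw [Fin.val_zero]
      omega
    have hsi : sv z i = z j := by
      unfold sv
      have h : 2 ≤ i.1 ∧ i.1 ≤ n := by
        simp only [hi]
        omega
      rw [dif_pos h]
      congr 1
    have w0 : ww fM u z 0 = 0 := by
      unfold ww
      rw [if_neg h0l, if_neg h01, hs0, zero_mul]
    have w1 : ww fM u z 1 = GG fM u (Fin.last (n + 1)) := by
      unfold ww
      rw [if_neg h1l, if_pos rfl]
    have wi : ww fM u z i = z j * GG fM u (Fin.last (n + 1)) := by
      unfold ww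
      rw [if_neg hil, if_neg hi1, hsi]
    have g0 : gg fM u z 0 = eval (ww fM u z) fM * qq fM u 0 := by
      unfold gg
      rw [w0, mul_zero, sub_zero]
    have g1 : gg fM u z 1 = eval (ww fM u z) fM * qq fM u 1 -
        HH fM u z * GG fM u (Fin.last (n + 1)) := by
      unfold gg
      rw [w1]
    have gi : gg fM u z i = eval (ww fM u z) fM * qq fM u i -
        HH fM u z * (z j * GG fM u (Fin.last (n + 1))) := by
      unfold gg
      rw [wi]
    have hden : gg fM u z 1 * qq fM u 0 - gg fM u z 0 * qq fM u 1 =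
        -(HH fM u z * GG fM u (Fin.last (n + 1)) * qq fM u 0) := by
      rw [g0, g1]
      ring
    have hden0 : gg fM u z 1 * qq fM u 0 - gg fM u z 0 * qq fM u 1 ≠ 0 := by
      rw [hden]
      exact neg_ne_zero.2 (mul_ne_zero (mul_ne_zero hH hG) hq)
    have hnum : gg fM u z i * qq fM u 0 - gg fM u z 0 * qq fM u i =
        z j * (gg fM u z 1 * qq fM u 0 - gg fM u z 0 * qq fM u 1) := by
      rw [g0, g1, gi]
      ring
    have hz : z j = (gg fM u z i / gg fM u z j0 * qq fM u 0 -
        gg fM u z 0 / gg fM u z j0 * qq fM u i) /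
        (gg fM u z 1 / gg fM u z j0 * qq fM u 0 - gg fM u z 0 / gg fM u z j0 * qq fM u 1) := by
      have e1 : ∀ a b c d : M, a / gg fM u z j0 * b - c / gg fM u z j0 * d =
          (a * b - c * d) / gg fM u z j0 := fun a b c d => by ring
      rw [e1, e1, div_div_div_cancel_right₀ hj0, hnum, mul_div_cancel_right₀ _ hden0]
    rw [hz]
    exact K.div_mem (K.sub_mem (K.mul_mem (hr i) (hqK 0)) (K.mul_mem (hr 0) (hqK i)))
      (K.sub_mem (K.mul_mem (hr 1) (hqK 0)) (K.mul_mem (hr 0) (hqK 1)))

/-- T4. the degree of the parametrization -/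
theorem fin_le {k M : Type} [Field k] [Field M] [Algebra k M] (hn : 2 ≤ n)
    {f : MvPolynomial (Fin (n + 2)) k} (hf : f.IsHomogeneous 3) (h0 : eval (e0 n k) f = 0)
    (z : Fin n → M) (hz : IntermediateField.adjoin k (Set.range z) = ⊤)
    (hN : NN (map (algebraMap k M) f) (z ⟨0, by omega⟩) z ≠ 0) :
    gg (map (algebraMap k M) f) (z ⟨0, by omega⟩) z ≠ 0 ∧
    aeval (gg (map (algebraMap k M) f) (z ⟨0, by omega⟩) z) f = 0 ∧
    0 < finrank (IntermediateField.adjoin k {y | ∃ i j,
      y = gg (map (algebraMap k M) f) (z ⟨0, by omega⟩) z i /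
        gg (map (algebraMap k M) f) (z ⟨0, by omega⟩) z j}) M ∧
    finrank (IntermediateField.adjoin k {y | ∃ i j,
      y = gg (map (algebraMap k M) f) (z ⟨0, by omega⟩) z i /
        gg (map (algebraMap k M) f) (z ⟨0, by omega⟩) z j}) M ≤ 6 := by
  have hfM : (map (algebraMap k M) f).IsHomogeneous 3 := hf.map _
  have he : e0 n M = fun i => algebraMap k M (e0 n k i) := by
    funext i
    unfold e0
    by_cases h : i = 0
    · subst h
      rw [Pi.single_eq_same, Pi.single_eq_same, map_one]
    · rw [Pi.single_eq_of_ne h, Pi.single_eq_of_ne h, map_zero]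
  have h0M : eval (e0 n M) (map (algebraMap k M) f) = 0 := by
    rw [he, X6D_ev, h0, map_zero]
  obtain ⟨⟨⟨hq, hG⟩, hH⟩, hS⟩ : ((qq (map (algebraMap k M) f) (z ⟨0, by omega⟩) 0 ≠ 0 ∧
      GG (map (algebraMap k M) f) (z ⟨0, by omega⟩) (Fin.last (n + 1)) ≠ 0) ∧
      HH (map (algebraMap k M) f) (z ⟨0, by omega⟩) z ≠ 0) ∧
      ∑ i, GG (map (algebraMap k M) f) 0 i *
        gg (map (algebraMap k M) f) (z ⟨0, by omega⟩) z i ≠ 0 := by
    unfold NN at hN
    have h1 := mul_ne_zero_iff.1 hN
    have h2 := mul_ne_zero_iff.1 h1.1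
    exact ⟨⟨mul_ne_zero_iff.1 h2.1, h2.2⟩, h1.2⟩
  have hmem := fun K j0 hu hj0 hr => X6D_mem hn f z K j0 hu hq hG hH hj0 hr
  have hgg := GG_gg hn hfM h0M (z ⟨0, by omega⟩) z
  have hg0 := gg_zero hn hfM h0M (z ⟨0, by omega⟩) z
  generalize gg (map (algebraMap k M) f) (z ⟨0, by omega⟩) z = g at *
  generalize z ⟨0, by omega⟩ = u at *
  have hgne : g ≠ 0 := by
    rintro rfl
    apply hS
    simp
  refine ⟨hgne, ?_, ?_⟩
  · rw [← hg0, eval_map, aeval_def]
  obtain ⟨j0, hj0⟩ : ∃ j0, g j0 ≠ 0 := Function.ne_iff.1 hgne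
  set E := IntermediateField.adjoin k {y | ∃ i j, y = g i / g j} with hE
  have hrE : ∀ i, g i / g j0 ∈ E := fun i => IntermediateField.subset_adjoin k _ ⟨i, j0, rfl⟩
  let P : Polynomial E := ∑ i, (GG (map (Polynomial.C : k →+* Polynomial k) f) Polynomial.X i).map
    (algebraMap k E) * Polynomial.C ⟨g i / g j0, hrE i⟩
  have hPe : ∀ x : M, Polynomial.aeval x P =
      (∑ i, GG (map (algebraMap k M) f) x i * g i) / g j0 := by
    intro x
    rw [map_sum, Finset.sum_div]
    refine Finset.sum_congr rfl fun i _ => ?_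
    rw [map_mul, Polynomial.aeval_map_algebraMap, X6D_GG, Polynomial.aeval_C]
    change _ * (g i / g j0) = _
    rw [mul_div_assoc]
  have hPu : Polynomial.aeval u P = 0 := by
    rw [hPe, hgg, zero_div]
  have hP0 : P ≠ 0 := by
    intro h
    have h1 := hPe 0
    rw [h, map_zero] at h1
    exact div_ne_zero hS hj0 h1.symm
  have hPd : P.natDegree ≤ 6 := by
    refine Polynomial.natDegree_sum_le_of_forall_le _ _ fun i _ => ?_
    refine (Polynomial.natDegree_mul_C_le _ _).trans ?_
    exact (Polynomial.natDegree_map_le).trans (GG_deg hf i)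
  have hint : IsIntegral E u := (isAlgebraic_iff_isIntegral).1 ⟨P, hP0, hPu⟩
  have htop : IntermediateField.adjoin E {u} = (⊤ : IntermediateField E M) := by
    have h1 : (⊤ : IntermediateField k M) ≤
        (IntermediateField.adjoin E ({u} : Set M)).restrictScalars k := by
      rw [← hz, IntermediateField.adjoin_le_iff]
      rintro _ ⟨j, rfl⟩
      refine hmem _ j0 ?_ hj0 ?_ j
      · exact IntermediateField.mem_adjoin_simple_self E u
      · intro i
        exact (IntermediateField.adjoin E ({u} : Set M)).algebraMap_mem ⟨g i / g j0, hrE i⟩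
    rw [eq_top_iff]
    intro x _
    exact h1 (IntermediateField.mem_top (x := x))
  have hfr : finrank E M = (minpoly E u).natDegree := by
    rw [← IntermediateField.adjoin.finrank hint, htop, IntermediateField.finrank_top']
  rw [hfr]
  refine ⟨minpoly.natDegree_pos hint, ?_⟩
  exact (Polynomial.natDegree_le_natDegree (minpoly.degree_le_of_ne_zero E u hP0 hPu)).trans hPd

end

end Pool.Agent.H900.X6
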