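import Mathlib

/-! # Parametrizations of degree six: definitions

Let `f` be a cubic form over `k` in `x_0, …, x_{n+1}`, which vanishes at `e_0 = (1, 0, …, 0)`. We
consider the points `q` of the nodal plane cubic which is cut out by the plane spanned by `e_0` and
two tangent vectors, and the third points of intersection of the tangent lines at `q`. -/

set_option autoImplicit false

namespace Pool.Agent.H900.X6

open MvPolynomial

noncomputable section

variable {n : ℕ} {R : Type} [CommRing R]

/-- the derivative of `f` at `x` in the direction `y` -/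
def DD (f : MvPolynomial (Fin (n + 2)) R) (x y : Fin (n + 2) → R) : R :=
  ∑ i, eval x (pderiv i f) * y i

/-- the point `(1, 0, …, 0)` -/
def e0 (n : ℕ) (R : Type) [CommRing R] : Fin (n + 2) → R := Pi.single 0 1

/-- the coefficients of the linear form `L` -/
def LL (f : MvPolynomial (Fin (n + 2)) R) (i : Fin (n + 2)) : R := eval (e0 n R) (pderiv i f)

/-- the tangent vector `v(u)` -/
def vv (f : MvPolynomial (Fin (n + 2)) R) (u : R) (i : Fin (n + 2)) : R :=
  if i = Fin.last (n + 1) then -(LL f 1 + u * LL f 2)
  else if i = 1 then LL f (Fin.last (n + 1))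
  else if i = 2 then u * LL f (Fin.last (n + 1)) else 0

/-- the point `q(u)` of the plane cubic -/
def qq (f : MvPolynomial (Fin (n + 2)) R) (u : R) (i : Fin (n + 2)) : R :=
  (if i = 0 then - eval (vv f u) f else 0) + DD f (vv f u) (e0 n R) * vv f u i

/-- the gradient of `f` at `q(u)` -/
def GG (f : MvPolynomial (Fin (n + 2)) R) (u : R) (i : Fin (n + 2)) : R :=
  eval (qq f u) (pderiv i f)

/-- the free coordinates `s_2, …, s_n` -/
def sv (z : Fin n → R) (i : Fin (n + 2)) : R :=
  if h : 2 ≤ i.1 ∧ i.1 ≤ n then z ⟨i.1 - 1, by omega⟩ else 0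

/-- a tangent vector at `q(u)` -/
def ww (f : MvPolynomial (Fin (n + 2)) R) (u : R) (z : Fin n → R) (i : Fin (n + 2)) : R :=
  if i = Fin.last (n + 1) then -(GG f u 1 + ∑ j, sv z j * GG f u j)
  else if i = 1 then GG f u (Fin.last (n + 1))
  else sv z i * GG f u (Fin.last (n + 1))

/-- the second order term -/
def HH (f : MvPolynomial (Fin (n + 2)) R) (u : R) (z : Fin n → R) : R :=
  DD f (ww f u z) (qq f u)

/-- the third point of intersection of the tangent line -/
def gg (f : MvPolynomial (Fin (n + 2)) R) (u : R) (z : Fin n → R) (i : Fin (n + 2)) : R :=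
  eval (ww f u z) f * qq f u i - HH f u z * ww f u z i

/-- the product which has to be different from zero -/
def NN (f : MvPolynomial (Fin (n + 2)) R) (u : R) (z : Fin n → R) : R :=
  qq f u 0 * GG f u (Fin.last (n + 1)) * HH f u z * ∑ i, GG f 0 i * gg f u z i

/-- the exponents of degree three different from that of `x_0 ^ 3` -/
abbrev Mon' (n : ℕ) : Type := {β : Fin (n + 2) →₀ ℕ // β.degree = 3 ∧ β ≠ Finsupp.single 0 3}

/-- the form `F(x_0 p + (0, x_1, …, x_{n+1}))` (for `p_0 = 1`) -/
def subst (p : Fin (n + 2) → R) (F : MvPolynomial (Fin (n + 2)) R) :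
    MvPolynomial (Fin (n + 2)) R :=
  aeval (fun i => if i = 0 then (X 0 : MvPolynomial (Fin (n + 2)) R) else X i + C (p i) * X 0) F

end

end Pool.Agent.H900.X6
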